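import Mathlib
import Pool.Prelude.Def_F_c31e40fa
import Pool.Agent.N228.LC.Mod

set_option autoImplicit false

open Complex Set Topology Filter Metric N62a1eb23 Pool.Agent.H712R2 Pool.Agent.N228.LC

namespace Pool.Agent.Run7.h734.LC

/-- logarithm of a zero free function on a ball -/
theorem exists_log {F : ℂ → ℂ} {c : ℂ} {R : ℝ} (hR : 0 < R) (hd : DifferentiableOn ℂ F (ball c R))
    (hne : ∀ z ∈ ball c R, F z ≠ 0) :
    ∃ h : ℂ → ℂ, h c = 0 ∧ (∀ z ∈ ball c R, HasDerivAt h (deriv F z / F z) z) ∧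
      ∀ z ∈ ball c R, F z = F c * cexp (h z) := by
  have hdF : DifferentiableOn ℂ (deriv F) (ball c R) := hd.deriv isOpen_ball
  have hq : DifferentiableOn ℂ (fun z => deriv F z / F z) (ball c R) := hdF.div hd hne
  obtain ⟨h0, hh0⟩ := hq.isExactOn_ball
  have hc : c ∈ ball c R := mem_ball_self hR
  refine ⟨fun z => h0 z - h0 c, by simp, fun z hz => (hh0 z hz).sub_const _, ?_⟩
  intro z hz
  have hconst : ∀ z ∈ ball c R, F z * cexp (-(h0 z - h0 c)) = F c := by
    intro z hz
    have hder : ∀ w ∈ ball c R, HasDerivWithinAt (fun w => F w * cexp (-(h0 w - h0 c))) 0 (ball c R) w := by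
      intro w hw
      have h1 : HasDerivAt F (deriv F w) w :=
        ((hd w hw).differentiableAt (isOpen_ball.mem_nhds hw)).hasDerivAt
      have h2 := ((hh0 w hw).sub_const (h0 c)).neg.cexp
      have h3 := h1.mul h2
      have h4 : HasDerivAt (fun w => F w * cexp (-(h0 w - h0 c))) 0 w := by
        refine h3.congr_deriv ?_
        have := hne w hw
        field_simp
        ring
      exact h4.hasDerivWithinAt
    have := (convex_ball c R).norm_image_sub_le_of_norm_hasDerivWithin_le (𝕜 := ℂ)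
      (f := fun w => F w * cexp (-(h0 w - h0 c))) (f' := fun _ => 0) (C := 0)
      hder (fun w _ => by simp) hc hz
    rw [zero_mul, norm_le_zero_iff, sub_eq_zero] at this
    simpa using this
  have := hconst z hz
  rw [← this, mul_assoc, ← Complex.exp_add]
  simp

/-- Schwarz lemma for functions with values outside the closed unit disc -/
theorem schwarz_ext {F : ℂ → ℂ} {c : ℂ} {R : ℝ} (hR : 0 < R)
    (hd : DifferentiableOn ℂ F (ball c R)) (h1 : ∀ z ∈ ball c R, 1 < ‖F z‖) :
    R * ‖deriv F c‖ ≤ 2 * (‖F c‖ * Real.log ‖F c‖) := by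
  have hne : ∀ z ∈ ball c R, F z ≠ 0 := fun z hz =>
    norm_pos_iff.mp (by linarith [h1 z hz])
  obtain ⟨h, hc0, hder, hexp⟩ := exists_log hR hd hne
  have hc : c ∈ ball c R := mem_ball_self hR
  set a : ℝ := Real.log ‖F c‖ with ha
  have ha0 : 0 < a := Real.log_pos (h1 c hc)
  have hFc : 0 < ‖F c‖ := by linarith [h1 c hc]
  have hre : ∀ z ∈ ball c R, -a < (h z).re := by
    intro z hz
    have h2 := h1 z hz
    rw [hexp z hz, norm_mul, Complex.norm_exp] at h2
    have h3 := Real.log_pos h2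
    rw [Real.log_mul hFc.ne' (Real.exp_pos _).ne', Real.log_exp] at h3
    linarith
  have hden : ∀ z ∈ ball c R, h z + 2 * a ≠ 0 := by
    intro z hz h0
    have h2 := congrArg Complex.re h0
    simp at h2
    have := hre z hz
    linarith
  set φ : ℂ → ℂ := fun z => h z / (h z + 2 * a) with hφ
  have hφd : ∀ z ∈ ball c R, HasDerivAt φ
      (((deriv F z / F z) * (h z + 2 * a) - h z * (deriv F z / F z)) / (h z + 2 * a) ^ 2) z := by
    intro z hz
    exact (hder z hz).div ((hder z hz).add_const (2 * (a:ℂ))) (hden z hz)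
  have hφc : φ c = 0 := by simp [hφ, hc0]
  have hmaps : MapsTo φ (ball c R) (closedBall (φ c) 1) := by
    intro z hz
    rw [hφc, mem_closedBall_zero_iff]
    simp only [hφ]
    rw [norm_div, div_le_one (norm_pos_iff.mpr (hden z hz))]
    apply (pow_le_pow_iff_left₀ (norm_nonneg _) (norm_nonneg _) two_ne_zero).mp
    rw [← Complex.normSq_eq_norm_sq, ← Complex.normSq_eq_norm_sq, Complex.normSq_apply,
      Complex.normSq_apply]
    have hr := hre z hz
    simp only [Complex.add_re, Complex.add_im, Complex.mul_re, Complex.mul_im, Complex.ofReal_re,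
      Complex.ofReal_im, Complex.re_ofNat, Complex.im_ofNat]
    nlinarith
  have hdiff : DifferentiableOn ℂ φ (ball c R) := fun z hz =>
    (hφd z hz).differentiableAt.differentiableWithinAt
  have key := Complex.norm_deriv_le_div_of_mapsTo_ball hdiff hmaps hR
  rw [(hφd c hc).deriv, hc0] at key
  have haC : (a:ℂ) ≠ 0 := by exact_mod_cast ha0.ne'
  have h5 : ((deriv F c / F c) * (0 + 2 * (a:ℂ)) - 0 * (deriv F c / F c)) / (0 + 2 * (a:ℂ)) ^ 2 =
      deriv F c / (F c * (2 * a)) := by
    have := hne c hc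
    field_simp
    ring
  rw [h5, norm_div, norm_mul, norm_mul, Complex.norm_real, Real.norm_eq_abs, abs_of_pos ha0,
    div_le_div_iff₀ (by simp; positivity) hR] at key
  simp at key
  nlinarith

/-- the real critical orbit -/
noncomputable def pr (n : ℕ) (c : ℝ) : ℕ → ℝ
  | 0 => 0
  | k + 1 => pr n c k ^ n + c

/-- its derivative with respect to the parameter -/
noncomputable def dr (n : ℕ) (c : ℝ) : ℕ → ℝ
  | 0 => 0
  | k + 1 => n * pr n c k ^ (n - 1) * dr n c k + 1

theorem P_pr (n : ℕ) (c : ℝ) (k : ℕ) : P n k (c:ℂ) = (pr n c k : ℂ) := by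
  induction k with
  | zero => simp [P_zero, pr]
  | succ k ih => rw [P_succ, ih, pr]; push_cast; ring

theorem P_deriv (n : ℕ) (c : ℝ) (k : ℕ) : HasDerivAt (P n k) ((dr n c k : ℝ) : ℂ) (c:ℂ) := by
  induction k with
  | zero =>
    have : P n 0 = fun _ => 0 := by funext c; exact P_zero n c
    rw [this]
    simpa [dr] using hasDerivAt_const (c:ℂ) (0:ℂ)
  | succ k ih =>
    have h1 : P n (k + 1) = fun c => P n k c ^ n + c := by funext c; exact P_succ n k c
    rw [h1]
    have h2 := (ih.pow n).add (hasDerivAt_id (c:ℂ))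
    refine h2.congr_deriv ?_
    rw [P_pr, dr]
    push_cast
    ring

theorem pr_nonneg {n : ℕ} {c : ℝ} (hc : 0 ≤ c) (k : ℕ) : 0 ≤ pr n c k := by
  induction k with
  | zero => simp [pr]
  | succ k ih => rw [pr]; positivity

theorem dr_nonneg {n : ℕ} {c : ℝ} (hc : 0 ≤ c) (k : ℕ) : 0 ≤ dr n c k := by
  induction k with
  | zero => simp [dr]
  | succ k ih =>
    rw [dr]
    have := pr_nonneg (n := n) hc k
    positivity

/-- the monotonicity behind the limit -/
theorem mono_step {n : ℕ} (hn : 2 ≤ n) {c p : ℝ} (hc : 0 < c) (hc2 : c ≤ 3 / 2) (hp : 2 ≤ p) :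
    (p ^ n + c + 3 * c) * Real.log (p ^ n + c) ≤ n * p ^ (n - 1) * ((p + 3 * c) * Real.log p) := by
  have hp0 : 0 < p := by linarith
  have hpn : 0 < p ^ n := by positivity
  have hlogp : 0.69 ≤ Real.log p := by
    have h1 : Real.log 2 ≤ Real.log p := Real.log_le_log (by norm_num) hp
    have := Real.log_two_gt_d9
    linarith
  have hpow : p ^ n = p ^ (n - 1) * p := by rw [← pow_succ]; congr 1; omega
  have hq2 : 2 ≤ p ^ (n - 1) := by
    calc (2:ℝ) ≤ p := hp
      _ = p ^ 1 := (pow_one p).symm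
      _ ≤ p ^ (n - 1) := pow_le_pow_right₀ (by linarith) (by omega)
  have hpn4 : 4 ≤ p ^ n := by rw [hpow]; nlinarith
  have hnr : (2:ℝ) ≤ n := by exact_mod_cast hn
  have h1 : Real.log (p ^ n + c) ≤ n * Real.log p + c / p ^ n := by
    have h2 : p ^ n + c = p ^ n * (1 + c / p ^ n) := by field_simp
    rw [h2, Real.log_mul hpn.ne' (by positivity), Real.log_pow]
    have h3 := Real.log_le_sub_one_of_pos (show 0 < 1 + c / p ^ n by positivity)
    linarith
  have h2 : (p ^ n + c + 3 * c) * Real.log (p ^ n + c) ≤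
      (p ^ n + 4 * c) * (n * Real.log p + c / p ^ n) := by
    have : p ^ n + c + 3 * c = p ^ n + 4 * c := by ring
    rw [this]
    exact mul_le_mul_of_nonneg_left h1 (by positivity)
  refine h2.trans ?_
  have h3 : (p ^ n + 4 * c) * (n * Real.log p + c / p ^ n) =
      n * p ^ n * Real.log p + 4 * c * (n * Real.log p) + c + 4 * c ^ 2 / p ^ n := by
    field_simp
    ring
  have h4 : n * p ^ (n - 1) * ((p + 3 * c) * Real.log p) =
      n * p ^ n * Real.log p + 3 * c * (p ^ (n - 1) * (n * Real.log p)) := by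
    rw [hpow]; ring
  rw [h3, h4]
  have h5 : 4 * c ^ 2 / p ^ n ≤ c ^ 2 := by
    rw [div_le_iff₀ hpn]; nlinarith [sq_nonneg c]
  have h6 : c ^ 2 ≤ 3 / 2 * c := by nlinarith
  have h7 : 1.38 ≤ n * Real.log p := by nlinarith
  have h8 : 2 * (n * Real.log p) ≤ p ^ (n - 1) * (n * Real.log p) :=
    mul_le_mul_of_nonneg_right hq2 (by linarith)
  nlinarith

theorem descend {n : ℕ} (hn : 2 ≤ n) {c : ℝ} (hc : 0 < c) (hc2 : c ≤ 3 / 2) {ρ : ℝ} (hρ : 0 ≤ ρ)
    {K : ℕ} (hK : ∀ k, K ≤ k → 2 ≤ pr n c k) (j : ℕ)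
    (h : ρ * dr n c (K + j) ≤ 2 * ((pr n c (K + j) + 3 * c) * Real.log (pr n c (K + j)))) :
    ρ * dr n c K ≤ 2 * ((pr n c K + 3 * c) * Real.log (pr n c K)) := by
  induction j with
  | zero => simpa using h
  | succ j ih =>
    apply ih
    have hp := hK (K + j) (by omega)
    have h1 := mono_step hn hc hc2 hp
    rw [← add_assoc] at h
    rw [pr, dr] at h
    set p := pr n c (K + j) with hpdef
    have hp0 : 0 < p := by linarith
    have hnr : (2:ℝ) ≤ n := by exact_mod_cast hn
    have hq : 0 < n * p ^ (n - 1) := by positivity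
    have h2 : (n * p ^ (n - 1)) * (ρ * dr n c (K + j)) ≤
        (n * p ^ (n - 1)) * (2 * ((p + 3 * c) * Real.log p)) := by
      calc (n * p ^ (n - 1)) * (ρ * dr n c (K + j)) ≤
          ρ * (n * p ^ (n - 1) * dr n c (K + j) + 1) := by nlinarith
        _ ≤ 2 * ((p ^ n + c + 3 * c) * Real.log (p ^ n + c)) := h
        _ ≤ 2 * (n * p ^ (n - 1) * ((p + 3 * c) * Real.log p)) := by linarith
        _ = _ := by ring
    exact le_of_mul_le_mul_left h2 hq

theorem pr_ge_two {n : ℕ} (hn : 2 ≤ n) {c : ℝ} (hc : 0 < c) {K : ℕ} (hK : 2 ≤ pr n c K) :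
    ∀ k, K ≤ k → 2 ≤ pr n c k := by
  intro k hk
  induction k, hk using Nat.le_induction with
  | base => exact hK
  | succ k hk ih =>
    rw [pr]
    have h1 : (2:ℝ) ^ n ≤ pr n c k ^ n := pow_le_pow_left₀ (by norm_num) ih n
    have h2 : (2:ℝ) ^ 1 ≤ 2 ^ n := pow_le_pow_right₀ (by norm_num) (by omega)
    linarith

/-- **Distance to the Multibrot set** -/
theorem dist_bound {n : ℕ} (hn : 2 ≤ n) {c : ℝ} (hc : 0 < c) (hc2 : c ≤ 3 / 2) {K : ℕ}
    (hK : 2 ≤ pr n c K) {ρ : ℝ} (hρ : 0 < ρ) (hb : ∀ w ∈ ball (c:ℂ) ρ, w ∉ multibrotSet n) :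
    ρ * dr n c K ≤ 4 * ((pr n c K + 3 * c) * Real.log (pr n c K)) := by
  set U : ℕ → Set ℂ := fun k => {w : ℂ | 2 < ‖P n (k + 1) w‖} with hU
  have hUo : ∀ k, IsOpen (U k) := fun k => isOpen_lt continuous_const (continuous_P n (k + 1)).norm
  have hUm : Monotone U := by
    apply monotone_nat_of_le_succ
    intro k w hw
    have hw' : 2 < ‖P n (k + 1) w‖ := hw
    exact hw'.trans (esc_step hn hw' (esc_of_gt hn (by omega) hw'))
  have hcomp : IsCompact (closedBall (c:ℂ) (ρ / 2)) := isCompact_closedBall _ _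
  have hcov : closedBall (c:ℂ) (ρ / 2) ⊆ ⋃ k, U k := by
    intro w hw
    have hwb : w ∈ ball (c:ℂ) ρ := by
      rw [mem_closedBall] at hw
      rw [mem_ball]; linarith
    have h1 := hb w hwb
    rw [mem_multibrot_iff hn] at h1
    push Not at h1
    obtain ⟨k, hk⟩ := h1
    have hk0 : k ≠ 0 := by
      rintro rfl
      rw [P_zero, norm_zero] at hk
      linarith
    rw [mem_iUnion]
    refine ⟨k - 1, ?_⟩
    show 2 < ‖P n (k - 1 + 1) w‖
    rw [Nat.sub_add_cancel (by omega)]
    exact hk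
  obtain ⟨k0, hk0⟩ := hcomp.elim_directed_cover U hUo hcov (directed_of_isDirected_le hUm)
  set k := K + (k0 + 1) with hk
  have hF1 : ∀ z ∈ ball (c:ℂ) (ρ / 2), 1 < ‖P n k z‖ := by
    intro z hz
    have h1 : z ∈ U k0 := hk0 (ball_subset_closedBall hz)
    have h2 : z ∈ U (K + k0) := hUm (by omega) h1
    have h3 : 2 < ‖P n (K + k0 + 1) z‖ := h2
    rw [hk, ← add_assoc]
    linarith
  have hdiff : Differentiable ℂ (P n k) := by
    have : ∀ k, Differentiable ℂ (P n k) := by
      intro k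
      induction k with
      | zero =>
        have : P n 0 = fun _ => 0 := by funext c; exact P_zero n c
        rw [this]; exact differentiable_const _
      | succ k ih =>
        have h1 : P n (k + 1) = fun c => P n k c ^ n + c := by funext c; exact P_succ n k c
        rw [h1]
        exact (ih.pow n).add differentiable_id
    exact this k
  have h1 := schwarz_ext (half_pos hρ) hdiff.differentiableOn hF1
  have hKk := pr_ge_two hn hc hK
  have hpk := hKk k (by omega)
  rw [(P_deriv n c k).deriv, P_pr, Complex.norm_real, Complex.norm_real, Real.norm_eq_abs,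
    Real.norm_eq_abs, abs_of_nonneg (dr_nonneg hc.le k), abs_of_nonneg (pr_nonneg hc.le k)] at h1
  have hlog : 0 ≤ Real.log (pr n c k) := Real.log_nonneg (by linarith)
  have h2 : ρ / 2 * dr n c k ≤ 2 * ((pr n c k + 3 * c) * Real.log (pr n c k)) := by
    refine h1.trans ?_
    have : pr n c k * Real.log (pr n c k) ≤ (pr n c k + 3 * c) * Real.log (pr n c k) :=
      mul_le_mul_of_nonneg_right (by linarith) hlog
    linarith
  have h3 := descend hn hc hc2 (half_pos hρ).le hKk (k0 + 1) h2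
  linarith

end Pool.Agent.Run7.h734.LC
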