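import Mathlib
import Pool.Prelude.Def_F_c31e40fa
import Pool.Agent.Run7.h734.LC.Dist

set_option autoImplicit false

open Set Topology Filter Metric N62a1eb23 Pool.Agent.H712R2 Pool.Agent.N228.LC

namespace Pool.Agent.Run7.h734.LC

theorem sr_half {n : ℕ} (hn : 2 ≤ n) : 1 / 2 ≤ sr n := by
  have hnr : (2:ℝ) ≤ n := by exact_mod_cast hn
  by_contra hh
  push Not at hh
  have h2 : sr n ^ (n - 1) < (1 / 2) ^ (n - 1) := pow_lt_pow_left₀ hh (sr_pos n).le (by omega)
  rw [sr_pow hn] at h2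
  have h3 : ((n:ℕ):ℝ) ≤ 2 ^ (n - 1) := by
    have : n - 1 < 2 ^ (n - 1) := Nat.lt_two_pow_self
    have : n ≤ 2 ^ (n - 1) := by omega
    exact_mod_cast this
  have h4 : (1 / 2 : ℝ) ^ (n - 1) ≤ 1 / n := by
    rw [div_pow, one_pow]
    exact one_div_le_one_div_of_le (by linarith) h3
  linarith

/-- second order Taylor bound, from below on the right and from above on the left -/
theorem taylor (m : ℕ) {s x : ℝ} (hs : 0 ≤ s) (hx : 0 ≤ x) :
    (x ≤ s → x ^ (m + 2) ≤ s ^ (m + 2) + (m + 2) * s ^ (m + 1) * (x - s) +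
      ((m + 2) * (m + 1) / 2) * s ^ m * (x - s) ^ 2) ∧
    (s ≤ x → s ^ (m + 2) + (m + 2) * s ^ (m + 1) * (x - s) +
      ((m + 2) * (m + 1) / 2) * s ^ m * (x - s) ^ 2 ≤ x ^ (m + 2)) := by
  induction m with
  | zero =>
    constructor <;> intro _ <;> push_cast <;> nlinarith
  | succ m ih =>
    obtain ⟨ih1, ih2⟩ := ih
    have hsm : 0 ≤ s ^ m := pow_nonneg hs m
    have e : x * (s ^ (m + 2) + (m + 2) * s ^ (m + 1) * (x - s) +
      ((m + 2) * (m + 1) / 2) * s ^ m * (x - s) ^ 2) =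
      s ^ (m + 1 + 2) + ((m + 1 : ℕ) + 2) * s ^ (m + 1 + 1) * (x - s) +
      (((m + 1 : ℕ) + 2) * ((m + 1 : ℕ) + 1) / 2) * s ^ (m + 1) * (x - s) ^ 2 +
      ((m + 2) * (m + 1) / 2) * s ^ m * (x - s) ^ 3 := by
      push_cast
      ring
    constructor
    · intro h
      have h1 := mul_le_mul_of_nonneg_left (ih1 h) hx
      have h2 : x * x ^ (m + 2) = x ^ (m + 1 + 2) := by ring
      rw [h2, e] at h1
      have h3 : (x - s) ^ 3 ≤ 0 := by
        have : (x - s) ^ 3 = (x - s) * (x - s) ^ 2 := by ring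
        rw [this]
        exact mul_nonpos_of_nonpos_of_nonneg (by linarith) (sq_nonneg _)
      have h4 : ((m + 2) * (m + 1) / 2 : ℝ) * s ^ m * (x - s) ^ 3 ≤ 0 :=
        mul_nonpos_of_nonneg_of_nonpos (by positivity) h3
      linarith
    · intro h
      have h1 := mul_le_mul_of_nonneg_left (ih2 h) hx
      have h2 : x * x ^ (m + 2) = x ^ (m + 1 + 2) := by ring
      rw [h2, e] at h1
      have h3 : 0 ≤ (x - s) ^ 3 := pow_nonneg (by linarith) 3
      have h4 : 0 ≤ ((m + 2) * (m + 1) / 2 : ℝ) * s ^ m * (x - s) ^ 3 := by positivity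
      linarith

/-- the curvature at the parabolic point -/
noncomputable def kp (n : ℕ) : ℝ := ((n:ℝ) - 1) / (2 * sr n)

/-- the gap function -/
noncomputable def gg (n : ℕ) (x : ℝ) : ℝ := x ^ n - x + rr n

theorem gg_quad {n : ℕ} (hn : 2 ≤ n) {x : ℝ} (hx : 0 ≤ x) :
    (x ≤ sr n → gg n x ≤ kp n * (x - sr n) ^ 2) ∧ (sr n ≤ x → kp n * (x - sr n) ^ 2 ≤ gg n x) := by
  obtain ⟨m, rfl⟩ : ∃ m, n = m + 2 := ⟨n - 2, by omega⟩
  have hs := sr_pos (m + 2)
  have h := taylor m hs.le hx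
  have h1 : sr (m + 2) ^ (m + 1) = 1 / ((m:ℝ) + 2) := by
    have := sr_pow hn
    simpa using this
  have hm2 : (0:ℝ) < (m:ℝ) + 2 := by positivity
  have h2 : ((m:ℝ) + 2) * sr (m + 2) ^ (m + 1) = 1 := by rw [h1]; field_simp
  have h3 : (((m:ℝ) + 2) * (m + 1) / 2) * sr (m + 2) ^ m = kp (m + 2) := by
    unfold kp
    have h4 : sr (m + 2) ^ (m + 1) = sr (m + 2) ^ m * sr (m + 2) := pow_succ _ _
    rw [h4] at h2
    rw [eq_div_iff (by positivity)]
    push_cast
    calc (((m:ℝ) + 2) * (m + 1) / 2) * sr (m + 2) ^ m * (2 * sr (m + 2)) =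
        (m + 1) * (((m:ℝ) + 2) * (sr (m + 2) ^ m * sr (m + 2))) := by ring
      _ = (m:ℝ) + 2 - 1 := by rw [h2]; ring
  have h5 : rr (m + 2) = sr (m + 2) - sr (m + 2) ^ (m + 2) := rfl
  rw [h3, h2] at h
  unfold gg
  rw [h5]
  constructor
  · intro hx'; have := h.1 hx'; linarith
  · intro hx'; have := h.2 hx'; linarith

theorem kp_bounds {n : ℕ} (hn : 2 ≤ n) : (n:ℝ) / 4 ≤ kp n ∧ kp n ≤ n := by
  have hnr : (2:ℝ) ≤ n := by exact_mod_cast hn
  have h1 := sr_half hn
  have h2 := sr_lt_one hn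
  unfold kp
  constructor
  · rw [div_le_div_iff₀ (by norm_num) (by linarith)]
    nlinarith
  · rw [div_le_iff₀ (by linarith)]
    nlinarith

theorem gg_nonneg {n : ℕ} (hn : 2 ≤ n) {x : ℝ} (hx : 0 ≤ x) : 0 ≤ gg n x := by
  have hs := sr_pos n
  have h1 := one_add_mul_le_pow (a := x / sr n - 1) (by
    have : 0 ≤ x / sr n := div_nonneg hx hs.le
    linarith) n
  have h2 : (1 + (x / sr n - 1)) = x / sr n := by ring
  have hnr : (2:ℝ) ≤ n := by exact_mod_cast hn
  rw [h2, div_pow, sr_pow' hn] at h1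
  have h3 : 0 < sr n / n := div_pos hs (by linarith)
  have h4 : (1 + (n:ℝ) * (x / sr n - 1)) * (sr n / n) ≤ x ^ n := by
    rwa [le_div_iff₀ h3] at h1
  have h5 : (1 + (n:ℝ) * (x / sr n - 1)) * (sr n / n) = x - rr n := by
    rw [rr_eq hn]; field_simp; ring
  unfold gg
  linarith

/-- the increment of the orbit -/
theorem pr_succ_sub {n : ℕ} {c : ℝ} (k : ℕ) :
    pr n c (k + 1) - pr n c k = gg n (pr n c k) + (c - rr n) := by
  rw [pr]; unfold gg; ring

theorem pr_step {n : ℕ} (hn : 2 ≤ n) {c : ℝ} (hc : 0 ≤ c) (k : ℕ) :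
    pr n c k + (c - rr n) ≤ pr n c (k + 1) := by
  have h1 := pr_succ_sub (n := n) (c := c) k
  have h2 := gg_nonneg hn (pr_nonneg (n := n) hc k)
  linarith

theorem pr_strictMono {n : ℕ} (hn : 2 ≤ n) {c : ℝ} (hc : rr n < c) : StrictMono (pr n c) := by
  apply strictMono_nat_of_lt_succ
  intro k
  have := pr_step hn (c := c) (by linarith [rr_pos hn]) k
  linarith

theorem pr_unbounded {n : ℕ} (hn : 2 ≤ n) {c : ℝ} (hc : rr n < c) (X : ℝ) : ∃ k, X ≤ pr n c k := by
  have key : ∀ k : ℕ, k * (c - rr n) ≤ pr n c k := by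
    intro k
    induction k with
    | zero => simp [pr]
    | succ k ih =>
      have := pr_step hn (c := c) (by linarith [rr_pos hn]) k
      push_cast
      linarith
  have hpos : 0 < c - rr n := by linarith
  obtain ⟨k, hk⟩ := exists_nat_ge (X / (c - rr n))
  refine ⟨k, ?_⟩
  rw [div_le_iff₀ hpos] at hk
  linarith [key k]

/-- convexity of the increments -/
theorem incr_convex {n : ℕ} (hn : 2 ≤ n) {c : ℝ} (hc : rr n < c) (k : ℕ) :
    pr n c (k + 2) - pr n c (k + 1) ≤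
      n * pr n c (k + 1) ^ (n - 1) * (pr n c (k + 1) - pr n c k) := by
  have hmono := pr_strictMono hn hc
  have h1 : pr n c k < pr n c (k + 1) := hmono (by omega)
  have h0 : 0 ≤ pr n c k := pr_nonneg (by linarith [rr_pos hn]) k
  have hp : 0 < pr n c (k + 1) := by linarith
  have h2 : pr n c (k + 2) - pr n c (k + 1) = pr n c (k + 1) ^ n - pr n c k ^ n := by
    rw [show k + 2 = (k + 1) + 1 by omega, pr, pr]
    ring
  rw [h2]
  -- Bernoulli at the right end point
  set p := pr n c (k + 1) with hpdef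
  set q := pr n c k with hqdef
  have h3 := one_add_mul_le_pow (a := q / p - 1) (by
    have : 0 ≤ q / p := div_nonneg h0 hp.le
    linarith) n
  have h4 : (1 + (q / p - 1)) = q / p := by ring
  rw [h4, div_pow, le_div_iff₀ (by positivity)] at h3
  have h5 : p ^ n = p ^ (n - 1) * p := by rw [← pow_succ]; congr 1; omega
  have h6 : (1 + (n:ℝ) * (q / p - 1)) * p ^ n = p ^ n + n * p ^ (n - 1) * (q - p) := by
    rw [h5]; field_simp
  rw [h6] at h3
  linarith

/-- lower bound for the derivative through the sum of the inverse increments -/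
theorem dr_sum {n : ℕ} (hn : 2 ≤ n) {c : ℝ} (hc : rr n < c) (k : ℕ) :
    (pr n c (k + 1) - pr n c k) * ∑ j ∈ Finset.range (k + 1), 1 / (pr n c (j + 1) - pr n c j) ≤
      dr n c (k + 1) := by
  have hmono := pr_strictMono hn hc
  have hpos : ∀ j, 0 < pr n c (j + 1) - pr n c j := fun j => by
    have : pr n c j < pr n c (j + 1) := hmono (by omega)
    linarith
  induction k with
  | zero =>
    simp only [zero_add, Finset.range_one, Finset.sum_singleton]
    rw [mul_one_div_cancel (hpos 0).ne', dr, dr]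
    simp
  | succ k ih =>
    rw [Finset.sum_range_succ, mul_add, mul_one_div_cancel (hpos (k + 1)).ne']
    rw [dr]
    set S := ∑ j ∈ Finset.range (k + 1), 1 / (pr n c (j + 1) - pr n c j) with hS
    have hS0 : 0 ≤ S := Finset.sum_nonneg (fun j _ => (one_div_pos.mpr (hpos j)).le)
    have h1 := incr_convex hn hc k
    have hq : 0 ≤ n * pr n c (k + 1) ^ (n - 1) := by
      have := pr_nonneg (n := n) (c := c) (by linarith [rr_pos hn]) (k + 1)
      positivity
    have h2 : (pr n c (k + 1 + 1) - pr n c (k + 1)) * S ≤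
        n * pr n c (k + 1) ^ (n - 1) * (pr n c (k + 1) - pr n c k) * S :=
      mul_le_mul_of_nonneg_right h1 hS0
    have h3 := mul_le_mul_of_nonneg_left ih hq
    nlinarith

/-- slow passage through the window to the left of the parabolic point -/
theorem slow {n : ℕ} (hn : 2 ≤ n) {c w τ : ℝ} (hc0 : 0 ≤ c) (hτ : c - rr n ≤ τ) (hτ0 : 0 ≤ τ)
    (hw0 : 0 ≤ w) (hw : kp n * w ^ 2 ≤ τ) {j : ℕ}
    (hj : pr n c j < sr n - w) (m : ℕ) (hm : sr n - w + 2 * τ * m ≤ sr n) :
    pr n c (j + 1 + m) ≤ sr n - w + 2 * τ * (m + 1) := by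
  -- one step
  have hkp := (kp_bounds hn).1
  have hnr : (2:ℝ) ≤ n := by exact_mod_cast hn
  have hstep : ∀ x y : ℝ, 0 ≤ x → x ≤ y → sr n - w ≤ y → y ≤ sr n → x ^ n + c ≤ y + 2 * τ := by
    intro x y hx hxy h1 h2
    have h3 : x ^ n ≤ y ^ n := pow_le_pow_left₀ hx hxy n
    have h4 := (gg_quad hn (hx.trans hxy)).1 h2
    have h5 : kp n * (y - sr n) ^ 2 ≤ kp n * w ^ 2 := by
      apply mul_le_mul_of_nonneg_left _ (by linarith)
      nlinarith
    unfold gg at h4
    linarith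
  induction m with
  | zero =>
    have := hstep (pr n c j) (sr n - w) (pr_nonneg hc0 j) hj.le le_rfl (by linarith)
    rw [Nat.add_zero, pr]
    push_cast
    linarith
  | succ m ih =>
    have h1 : sr n - w + 2 * τ * m ≤ sr n := by
      push_cast at hm; nlinarith
    have h2 := ih h1
    have h3 := hstep (pr n c (j + 1 + m)) (sr n - w + 2 * τ * (m + 1)) (pr_nonneg hc0 _) h2
      (by nlinarith [(Nat.cast_nonneg m : (0:ℝ) ≤ m)]) (by push_cast at hm; linarith)
    rw [← add_assoc, pr]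
    push_cast
    linarith

end Pool.Agent.Run7.h734.LC
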