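import Mathlib
import Pool.Prelude.Def_F_c31e40fa
import Pool.Agent.Run7.h734.LC.Gate

set_option autoImplicit false

open Set Topology Filter Metric N62a1eb23 Pool.Agent.H712R2 Pool.Agent.N228.LC

namespace Pool.Agent.Run7.h734.LC

/-- lower bound for the derivative after the passage through the gate -/
theorem gate_deriv {n : ℕ} (hn : 2 ≤ n) {τ : ℝ} (hτ0 : 0 < τ) (hτ : 40 * n * τ ≤ 1) {k : ℕ}
    (hk : sr n ≤ pr n (rr n + τ) k) :
    (pr n (rr n + τ) (k + 1) - pr n (rr n + τ) k) * (Real.sqrt (τ / kp n) / (8 * τ ^ 2)) ≤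
      dr n (rr n + τ) (k + 1) := by
  set c := rr n + τ with hc
  have hcr : rr n < c := by linarith
  have hc0 : 0 ≤ c := by linarith [rr_pos hn]
  have hnr : (2:ℝ) ≤ n := by exact_mod_cast hn
  have hs := sr_half hn
  obtain ⟨hkp1, hkp2⟩ := kp_bounds hn
  have hkp0 : 0 < kp n := by linarith
  set w := Real.sqrt (τ / kp n) with hw
  have hw2 : w ^ 2 = τ / kp n := Real.sq_sqrt (by positivity)
  have hw0 : 0 < w := Real.sqrt_pos.mpr (by positivity)
  have hkw : kp n * w ^ 2 = τ := by rw [hw2]; field_simp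
  have hτn : τ ≤ 1 / 80 := by nlinarith
  have hw_half : w < 1 / 2 := by
    have h1 : w ^ 2 < (1 / 2) ^ 2 := by
      have : (n:ℝ) / 4 * w ^ 2 ≤ τ := by
        rw [← hkw]; exact mul_le_mul_of_nonneg_right hkp1 (sq_nonneg _)
      nlinarith
    exact lt_of_pow_lt_pow_left₀ 2 (by norm_num) h1
  have hw4 : 4 * τ ≤ w := by
    have h1 : (4 * τ) ^ 2 ≤ w ^ 2 := by
      have h2 : τ ≤ n * w ^ 2 := by
        rw [← hkw]; exact mul_le_mul_of_nonneg_right hkp2 (sq_nonneg _)
      have h3 : n * (16 * τ ^ 2) ≤ τ := by nlinarith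
      have h4 : (n:ℝ) * (16 * τ ^ 2) ≤ n * w ^ 2 := h3.trans h2
      have h5 := le_of_mul_le_mul_left h4 (by linarith)
      nlinarith
    exact le_of_sq_le_sq h1 hw0.le
  have hmono := pr_strictMono hn hcr
  have hpos : ∀ j, 0 < pr n c (j + 1) - pr n c j := fun j => by
    have : pr n c j < pr n c (j + 1) := hmono (by omega)
    linarith
  -- the entrance index
  have hex : ∃ j, sr n - w ≤ pr n c j := pr_unbounded hn hcr _
  classical
  set j1 := Nat.find hex with hj1
  have hj1s : sr n - w ≤ pr n c j1 := Nat.find_spec hex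
  have hj1pos : j1 ≠ 0 := by
    intro h
    rw [h] at hj1s
    simp only [pr] at hj1s
    linarith
  obtain ⟨j0, hj0⟩ : ∃ j0, j1 = j0 + 1 := ⟨j1 - 1, by omega⟩
  have hj0s : pr n c j0 < sr n - w := by
    have := Nat.find_min hex (m := j0) (by omega)
    linarith [not_le.mp this]
  set M := ⌊w / (2 * τ)⌋₊ with hM
  have hM1 : (M:ℝ) ≤ w / (2 * τ) := Nat.floor_le (by positivity)
  have hM2 : w / (2 * τ) < M + 1 := Nat.lt_floor_add_one _
  have hin : ∀ m, m < M → pr n c (j0 + 1 + m) ≤ sr n ∧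
      1 / (2 * τ) ≤ 1 / (pr n c (j0 + 1 + m + 1) - pr n c (j0 + 1 + m)) := by
    intro m hm
    have hm' : (m:ℝ) + 1 ≤ M := by exact_mod_cast hm
    have h1 : 2 * τ * (m + 1) ≤ w := by
      have : (m:ℝ) + 1 ≤ w / (2 * τ) := hm'.trans hM1
      rw [le_div_iff₀ (by positivity)] at this
      linarith
    have h2 := slow hn hc0 (τ := τ) (by rw [hc]; linarith) hτ0.le hw0.le hkw.le
      hj0s m (by nlinarith)
    have h3 : pr n c (j0 + 1 + m) ≤ sr n := by linarith
    have h4 : sr n - w ≤ pr n c (j0 + 1 + m) := by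
      refine (hj0 ▸ hj1s).trans (hmono.monotone (by omega))
    refine ⟨h3, ?_⟩
    apply one_div_le_one_div_of_le (hpos _)
    rw [pr_succ_sub]
    have h5 := (gg_quad hn (pr_nonneg hc0 (j0 + 1 + m))).1 h3
    have h6 : kp n * (pr n c (j0 + 1 + m) - sr n) ^ 2 ≤ kp n * w ^ 2 := by
      apply mul_le_mul_of_nonneg_left _ hkp0.le
      nlinarith
    have h7 : c - rr n = τ := by rw [hc]; ring
    linarith
  have hsub : Finset.Ico (j0 + 1) (j0 + 1 + M) ⊆ Finset.range (k + 1) := by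
    intro j hj
    rw [Finset.mem_Ico] at hj
    rw [Finset.mem_range]
    obtain ⟨m, rfl⟩ : ∃ m, j = j0 + 1 + m := ⟨j - (j0 + 1), by omega⟩
    have h1 := (hin m (by omega)).1
    have h2 : pr n c (j0 + 1 + m) ≤ pr n c k := h1.trans hk
    have := hmono.le_iff_le.mp h2
    omega
  have hsum : (M:ℝ) * (1 / (2 * τ)) ≤
      ∑ j ∈ Finset.range (k + 1), 1 / (pr n c (j + 1) - pr n c j) := by
    calc (M:ℝ) * (1 / (2 * τ)) = ∑ m ∈ Finset.range M, 1 / (2 * τ) := by
          rw [Finset.sum_const, Finset.card_range, nsmul_eq_mul]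
      _ ≤ ∑ m ∈ Finset.range M, 1 / (pr n c (j0 + 1 + m + 1) - pr n c (j0 + 1 + m)) := by
          apply Finset.sum_le_sum
          intro m hm
          exact (hin m (Finset.mem_range.mp hm)).2
      _ = ∑ j ∈ Finset.Ico (j0 + 1) (j0 + 1 + M), 1 / (pr n c (j + 1) - pr n c j) := by
          rw [Finset.sum_Ico_eq_sum_range]
          simp
      _ ≤ _ := by
          apply Finset.sum_le_sum_of_subset_of_nonneg hsub
          intro j _ _
          exact (one_div_pos.mpr (hpos j)).le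
  have hdr := dr_sum hn hcr k
  refine le_trans ?_ hdr
  apply mul_le_mul_of_nonneg_left _ (hpos k).le
  refine le_trans ?_ hsum
  have h8 : w / (4 * τ) ≤ M := by
    have h9 : 1 ≤ w / (4 * τ) := by
      rw [le_div_iff₀ (by positivity)]; linarith
    have h10 : w / (2 * τ) = w / (4 * τ) + w / (4 * τ) := by field_simp; ring
    linarith
  have h11 : w / (8 * τ ^ 2) = w / (4 * τ) * (1 / (2 * τ)) := by field_simp; ring
  rw [h11]
  exact mul_le_mul_of_nonneg_right h8 (by positivity)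

/-- `z_i`, the position of the orbit in the exponential coordinate -/
noncomputable def zz (n : ℕ) (c : ℝ) (i : ℕ) : ℝ := n * pr n c i ^ n / c

theorem zz_eq {n : ℕ} {c : ℝ} (_hc : 0 < c) (i : ℕ) :
    zz n c i = n * (pr n c (i + 1) - c) / c := by
  unfold zz; rw [pr]; ring

theorem pr_zz {n : ℕ} (hn : 2 ≤ n) {c : ℝ} (hc : 0 < c) (i : ℕ) :
    pr n c (i + 1) = c * (1 + zz n c i / n) := by
  have hn0 : (n:ℝ) ≠ 0 := by
    have : (2:ℝ) ≤ n := by exact_mod_cast hn
    linarith
  rw [zz_eq hc]; field_simp; ring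

theorem zz_nonneg {n : ℕ} {c : ℝ} (hc : 0 < c) (i : ℕ) : 0 ≤ zz n c i := by
  unfold zz
  have := pr_nonneg (n := n) hc.le i
  positivity

/-- upper bound of the growth -/
theorem zz_succ_le {n : ℕ} (hn : 2 ≤ n) {c : ℝ} (hc : 0 < c) (hcs : c ≤ sr n) (i : ℕ) :
    zz n c (i + 1) ≤ Real.exp (zz n c i) := by
  have hnr : (2:ℝ) ≤ n := by exact_mod_cast hn
  have h1 : zz n c (i + 1) = (n * c ^ (n - 1)) * (1 + zz n c i / n) ^ n := by
    have h2 : zz n c (i + 1) = n * pr n c (i + 1) ^ n / c := rfl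
    rw [h2, pr_zz hn hc, mul_pow]
    have h3 : c ^ n = c ^ (n - 1) * c := by rw [← pow_succ]; congr 1; omega
    rw [h3]; field_simp
  have h2 : n * c ^ (n - 1) ≤ 1 := by
    have h3 : c ^ (n - 1) ≤ sr n ^ (n - 1) := pow_le_pow_left₀ hc.le hcs _
    rw [sr_pow hn] at h3
    calc n * c ^ (n - 1) ≤ n * (1 / n) := mul_le_mul_of_nonneg_left h3 (by linarith)
      _ = 1 := by field_simp
  have h3 : (1 + zz n c i / n) ^ n ≤ Real.exp (zz n c i) := by
    have h4 : 1 + zz n c i / n ≤ Real.exp (zz n c i / n) := by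
      have := Real.add_one_le_exp (zz n c i / n); linarith
    have h5 : 0 ≤ 1 + zz n c i / n := by
      have := zz_nonneg (n := n) hc i
      positivity
    calc (1 + zz n c i / n) ^ n ≤ Real.exp (zz n c i / n) ^ n := pow_le_pow_left₀ h5 h4 n
      _ = Real.exp (zz n c i) := by
          rw [← Real.exp_nat_mul]; congr 1; field_simp
  rw [h1]
  calc (n * c ^ (n - 1)) * (1 + zz n c i / n) ^ n ≤ 1 * Real.exp (zz n c i) := by
        apply mul_le_mul h2 h3 _ (by norm_num)
        have := zz_nonneg (n := n) hc i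
        positivity
    _ = _ := one_mul _

/-- lower bound of the growth to the right of the parabolic point -/
theorem zz_ratio {n : ℕ} (hn : 2 ≤ n) {c : ℝ} (hc : rr n < c) {i : ℕ}
    (hi : sr n + 1 / n ≤ pr n c (i + 1)) : 9 / 8 * zz n c i ≤ zz n c (i + 1) := by
  have hnr : (2:ℝ) ≤ n := by exact_mod_cast hn
  have hc0 : 0 < c := (rr_pos hn).trans hc
  have h0 : zz n c (i + 1) = n * pr n c (i + 1) ^ n / c := rfl
  rw [h0, zz_eq hc0 i]
  set x := pr n c (i + 1) with hx
  have hs := sr_pos n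
  have hs1 := sr_lt_one hn
  have hn0 : 0 < 1 / (n:ℝ) := by positivity
  have hxs : sr n ≤ x := by linarith
  have hx0 : 0 ≤ x := by linarith
  have h1 := (gg_quad hn hx0).2 hxs
  have h2 := (kp_bounds hn).1
  have h3 : rr n = sr n - sr n / n := by rw [rr_eq hn]; ring
  have hsn : sr n / n ≤ 1 / n := by
    apply div_le_div_of_nonneg_right hs1.le; linarith
  set h := x - sr n with hh
  have hh0 : 1 / (n:ℝ) ≤ h := by linarith
  have h4 : 1 / 4 * h ≤ kp n * h ^ 2 := by
    have h5 : (n:ℝ) / 4 * h ^ 2 ≤ kp n * h ^ 2 := mul_le_mul_of_nonneg_right h2 (sq_nonneg _)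
    have h6 : 1 / 4 * h ≤ (n:ℝ) / 4 * h ^ 2 := by
      have h7 : 1 ≤ (n:ℝ) * h := by
        rw [div_le_iff₀ (by linarith)] at hh0; linarith
      nlinarith
    linarith
  have h5 : 1 / 8 * (x - rr n) ≤ kp n * h ^ 2 := by
    have : x - rr n = h + sr n / n := by rw [h3, hh]; ring
    rw [this]; linarith
  have h6 : 9 / 8 * (x - c) ≤ x ^ n := by
    unfold gg at h1
    have h7 : 9 / 8 * (x - c) ≤ 9 / 8 * (x - rr n) := by linarith
    linarith
  have h7 : 9 / 8 * (n * (x - c) / c) = n * (9 / 8 * (x - c)) / c := by ring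
  rw [h7]
  apply div_le_div_of_nonneg_right _ hc0.le
  exact mul_le_mul_of_nonneg_left h6 (by linarith)

/-- multiplier in terms of the exponential coordinate -/
theorem mult_ge {n : ℕ} (hn : 2 ≤ n) {c : ℝ} (hc : 0 < c) (i : ℕ) :
    zz n c (i + 1) * Real.exp (-(zz n c i / n)) ≤ n * pr n c (i + 1) ^ (n - 1) ∧
    n * pr n c (i + 1) ^ (n - 1) ≤ zz n c (i + 1) := by
  have hnr : (2:ℝ) ≤ n := by exact_mod_cast hn
  have hz := zz_nonneg (n := n) hc i
  have hq : 0 < 1 + zz n c i / n := by positivity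
  have hp : 0 < pr n c (i + 1) := by rw [pr_zz hn hc]; positivity
  have h1 : n * pr n c (i + 1) ^ (n - 1) = zz n c (i + 1) / (1 + zz n c i / n) := by
    have h2 : zz n c (i + 1) = n * pr n c (i + 1) ^ n / c := rfl
    rw [h2]
    have h3 : 1 + zz n c i / n = pr n c (i + 1) / c := by
      rw [pr_zz hn hc]; field_simp
    have h4 : pr n c (i + 1) ^ n = pr n c (i + 1) ^ (n - 1) * pr n c (i + 1) := by
      rw [← pow_succ]; congr 1; omega
    rw [h3, h4]; field_simp
  have hz1 := zz_nonneg (n := n) hc (i + 1)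
  rw [h1]
  constructor
  · rw [Real.exp_neg, ← div_eq_mul_inv]
    apply div_le_div_of_nonneg_left hz1 hq
    have := Real.add_one_le_exp (zz n c i / n)
    linarith
  · apply div_le_self hz1
    have : 0 ≤ zz n c i / n := by positivity
    linarith

end Pool.Agent.Run7.h734.LC
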