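import Mathlib
import Pool.Prelude.Def_F_c31e40fa
import Pool.Agent.Run7.h734.LC.Growth

set_option autoImplicit false

open Set Topology Filter Metric N62a1eb23 Pool.Agent.H712R2 Pool.Agent.N228.LC

namespace Pool.Agent.Run7.h734.LC

/-- truncated logarithm -/
noncomputable def ff (x : ℝ) : ℝ := max 1 (Real.log x)

theorem ff_ge (x : ℝ) : 1 ≤ ff x := le_max_left _ _

theorem ff_iter_ge {x : ℝ} (hx : 1 ≤ x) (j : ℕ) : 1 ≤ ff^[j] x := by
  cases j with
  | zero => simpa using hx
  | succ j => rw [Function.iterate_succ_apply']; exact ff_ge _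

theorem fac_bound : ∀ b : ℕ, 1 ≤ b → ∀ x : ℝ, 1 ≤ x → x ≤ b → ∀ N : ℕ,
    ∏ i ∈ Finset.range N, ff^[i] x ≤ (b.factorial : ℝ) := by
  intro b hb
  induction b, hb using Nat.le_induction with
  | base =>
    intro x hx1 hx2 N
    have hx : x = 1 := by push_cast at hx2; linarith
    subst hx
    have h1 : ∀ i, ff^[i] (1:ℝ) = 1 := by
      intro i
      induction i with
      | zero => rfl
      | succ i ih => rw [Function.iterate_succ_apply', ih]; unfold ff; simp
    simp [h1]
  | succ b hb ih =>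
    intro x hx1 hx2 N
    cases N with
    | zero => simp; exact_mod_cast Nat.one_le_iff_ne_zero.mpr (Nat.factorial_ne_zero _)
    | succ N =>
      rw [Finset.prod_range_succ']
      simp only [Function.iterate_zero, id_eq, Function.iterate_succ_apply]
      have hb1 : (1:ℝ) ≤ b := by exact_mod_cast hb
      have h1 : ff x ≤ b := by
        unfold ff
        apply max_le hb1
        have := Real.log_le_sub_one_of_pos (show 0 < x by linarith)
        push_cast at hx2
        linarith
      have h2 := ih (ff x) (ff_ge x) h1 N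
      rw [Nat.factorial_succ]
      push_cast
      have h3 : 0 ≤ ∏ i ∈ Finset.range N, ff^[i] (ff x) :=
        Finset.prod_nonneg (fun i _ => by linarith [ff_iter_ge (ff_ge x) i])
      push_cast at hx2
      calc (∏ i ∈ Finset.range N, ff^[i] (ff x)) * x ≤ (b.factorial : ℝ) * (b + 1) :=
            mul_le_mul h2 hx2 (by linarith) (by positivity)
        _ = _ := by ring

theorem tower_abs {N : ℕ} {a : ℕ → ℝ} {x : ℝ} (hx : 1 ≤ x) (h1 : ∀ u ≤ N, 1 ≤ a u)
    (h2 : ∀ u < N, a (u + 1) ≤ Real.exp (a u)) (h3 : x ≤ a N) (h4 : a 0 ≤ 30) (M : ℕ) :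
    ∏ j ∈ Finset.range M, ff^[j] x ≤ (Nat.factorial 30 : ℝ) * ∏ u ∈ Finset.range N, a (u + 1) := by
  have hj : ∀ j, j ≤ N → ff^[j] x ≤ a (N - j) := by
    intro j
    induction j with
    | zero => intro _; simpa using h3
    | succ j ih =>
      intro hj
      have h5 := ih (by omega)
      rw [Function.iterate_succ_apply']
      unfold ff
      apply max_le (h1 _ (by omega))
      have h6 := h2 (N - (j + 1)) (by omega)
      have h7 : N - (j + 1) + 1 = N - j := by omega
      rw [h7] at h6
      have h8 := ff_iter_ge hx j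
      have h9 : Real.log (ff^[j] x) ≤ Real.log (Real.exp (a (N - (j + 1)))) :=
        Real.log_le_log (by linarith) (h5.trans h6)
      rwa [Real.log_exp] at h9
  have hrefl : ∏ u ∈ Finset.range N, a (u + 1) = ∏ j ∈ Finset.range N, a (N - j) := by
    rw [← Finset.prod_range_reflect]
    apply Finset.prod_congr rfl
    intro j hj
    rw [Finset.mem_range] at hj
    congr 1; omega
  have hle : ∏ j ∈ Finset.range N, ff^[j] x ≤ ∏ u ∈ Finset.range N, a (u + 1) := by
    rw [hrefl]
    apply Finset.prod_le_prod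
    · intro j _; linarith [ff_iter_ge hx j]
    · intro j hj'; exact hj j (by rw [Finset.mem_range] at hj'; omega)
  have hpos : 0 ≤ ∏ j ∈ Finset.range N, ff^[j] x :=
    Finset.prod_nonneg (fun j _ => by linarith [ff_iter_ge hx j])
  have hfac1 : (1:ℝ) ≤ (Nat.factorial 30 : ℝ) := by
    exact_mod_cast Nat.one_le_iff_ne_zero.mpr (Nat.factorial_ne_zero _)
  rcases le_total M N with hMN | hMN
  · have h5 : ∏ j ∈ Finset.range M, ff^[j] x ≤ ∏ j ∈ Finset.range N, ff^[j] x := by
      obtain ⟨R, rfl⟩ : ∃ R, N = M + R := ⟨N - M, by omega⟩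
      rw [Finset.prod_range_add]
      have hR : ∀ R, 1 ≤ ∏ r ∈ Finset.range R, ff^[M + r] x := by
        intro R
        induction R with
        | zero => simp
        | succ R ih =>
          rw [Finset.prod_range_succ]
          have := ff_iter_ge hx (M + R)
          nlinarith
      have h6 : 0 ≤ ∏ j ∈ Finset.range M, ff^[j] x :=
        Finset.prod_nonneg (fun j _ => by linarith [ff_iter_ge hx j])
      exact le_mul_of_one_le_right h6 (hR R)
    calc ∏ j ∈ Finset.range M, ff^[j] x ≤ 1 * ∏ u ∈ Finset.range N, a (u + 1) := by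
          rw [one_mul]; exact h5.trans hle
      _ ≤ _ := mul_le_mul_of_nonneg_right hfac1 (hpos.trans hle)
  · obtain ⟨R, rfl⟩ : ∃ R, M = N + R := ⟨M - N, by omega⟩
    rw [Finset.prod_range_add]
    have h5 : ∏ r ∈ Finset.range R, ff^[N + r] x ≤ (Nat.factorial 30 : ℝ) := by
      have h6 := fac_bound 30 (by norm_num) (ff^[N] x) (ff_iter_ge hx N) (by
        have := hj N le_rfl
        rw [Nat.sub_self] at this
        push_cast
        linarith) R
      refine le_trans (le_of_eq ?_) h6
      apply Finset.prod_congr rfl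
      intro r _
      rw [add_comm N r, Function.iterate_add_apply]
    have h7 : 0 ≤ ∏ r ∈ Finset.range R, ff^[N + r] x :=
      Finset.prod_nonneg (fun j _ => by linarith [ff_iter_ge hx (N + j)])
    calc (∏ j ∈ Finset.range N, ff^[j] x) * ∏ r ∈ Finset.range R, ff^[N + r] x ≤
        (∏ u ∈ Finset.range N, a (u + 1)) * (Nat.factorial 30 : ℝ) :=
          mul_le_mul hle h5 h7 (hpos.trans hle)
      _ = _ := mul_comm _ _

theorem dr_growth {n : ℕ} {c : ℝ} (hc : 0 ≤ c) (k v : ℕ) :
    (∏ u ∈ Finset.range v, (n * pr n c (k + u) ^ (n - 1))) * dr n c k ≤ dr n c (k + v) := by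
  induction v with
  | zero => simp
  | succ v ih =>
    rw [Finset.prod_range_succ, ← add_assoc, dr]
    have hq : 0 ≤ n * pr n c (k + v) ^ (n - 1) := by
      have := pr_nonneg (n := n) hc (k + v)
      positivity
    have := mul_le_mul_of_nonneg_left ih hq
    nlinarith

/-- the growth of the derivative up to the value `3` -/
theorem final_deriv {n : ℕ} (hn : 2 ≤ n) {c : ℝ} (hcr : rr n < c) (hcs : c ≤ sr n)
    (hc1 : c * (1 + 1 / n) ≤ sr n + 1 / n) {l v : ℕ} (hl : pr n c l < sr n + 1 / n)
    (hl1 : sr n + 1 / n ≤ pr n c (l + 1)) (hK : pr n c (l + 2 + v) = 3) :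
    (∏ j ∈ Finset.range (n + 1), ff^[j] (n:ℝ)) * dr n c (l + 2) ≤
      ((Nat.factorial 30 : ℝ) * Real.exp 126) * dr n c (l + 2 + v) := by
  have hnr : (2:ℝ) ≤ n := by exact_mod_cast hn
  have hn0 : (0:ℝ) < n := by linarith
  have hc0 : 0 < c := (rr_pos hn).trans hcr
  have hs1 := sr_lt_one hn
  have hs2 := sr_half hn
  have hc14 : 1 / 4 ≤ c := by
    have := quarter_le hn
    linarith
  have hmono := pr_strictMono hn hcr
  set a : ℕ → ℝ := fun u => zz n c (l + u) with ha
  set N := v + 1 with hN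
  have hpr : ∀ u, sr n + 1 / n ≤ pr n c (l + u + 1) := by
    intro u
    exact hl1.trans (hmono.monotone (by omega))
  have ha1 : ∀ u ≤ N, 1 ≤ a u := by
    intro u _
    have h1 := hpr u
    rw [pr_zz hn hc0] at h1
    have h2 : c * (1 + 1 / n) ≤ c * (1 + zz n c (l + u) / n) := hc1.trans h1
    have h3 := le_of_mul_le_mul_left h2 hc0
    have h4 : 1 / (n:ℝ) ≤ zz n c (l + u) / n := by linarith
    have := (div_le_div_iff_of_pos_right hn0).mp h4
    exact this
  have ha2 : ∀ u < N, a (u + 1) ≤ Real.exp (a u) := by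
    intro u _
    exact zz_succ_le hn hc0 hcs (l + u)
  have haN : a N = n * (3 - c) / c := by
    have : a N = zz n c (l + 1 + v) := by simp only [ha]; congr 1; omega
    rw [this, zz_eq hc0, show l + 1 + v + 1 = l + 2 + v by omega, hK]
  have ha3 : (n:ℝ) ≤ a N := by
    rw [haN, le_div_iff₀ hc0]
    nlinarith
  have ha3' : a N ≤ 12 * n := by
    rw [haN, div_le_iff₀ hc0]
    nlinarith
  have ha4 : a 0 ≤ 30 := by
    have h1 : a 0 = n * pr n c l ^ n / c := by simp only [ha]; rfl
    rw [h1]
    have hp0 := pr_nonneg (n := n) hc0.le l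
    have h2 : pr n c l ^ n ≤ (sr n + 1 / n) ^ n := pow_le_pow_left₀ hp0 hl.le n
    have h3 : (sr n + 1 / n) ^ n ≤ sr n ^ n * Real.exp 2 := by
      have h4 : sr n + 1 / n = sr n * (1 + (1 / sr n) / n) := by
        have := sr_pos n
        field_simp
      have h5 : 1 + (1 / sr n) / n ≤ Real.exp (2 / n) := by
        have h6 : (1 / sr n) / n ≤ 2 / n := by
          apply div_le_div_of_nonneg_right _ hn0.le
          rw [div_le_iff₀ (sr_pos n)]; linarith
        have := Real.add_one_le_exp (2 / (n:ℝ))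
        linarith
      rw [h4, mul_pow]
      apply mul_le_mul_of_nonneg_left _ (pow_nonneg (sr_pos n).le n)
      have h7 : 0 ≤ 1 + (1 / sr n) / n := by
        have := sr_pos n
        positivity
      calc (1 + (1 / sr n) / n) ^ n ≤ Real.exp (2 / n) ^ n := pow_le_pow_left₀ h7 h5 n
        _ = Real.exp 2 := by rw [← Real.exp_nat_mul]; congr 1; field_simp
    have h4 : (n:ℝ) * sr n ^ n = sr n := by rw [sr_pow' hn]; field_simp
    have h5 : Real.exp 2 ≤ 7.5 := by
      have h6 : Real.exp 2 = Real.exp 1 * Real.exp 1 := by rw [← Real.exp_add]; norm_num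
      have := Real.exp_one_lt_d9
      have := Real.exp_pos 1
      rw [h6]; nlinarith
    rw [div_le_iff₀ hc0]
    have h6 : (n:ℝ) * pr n c l ^ n ≤ n * (sr n ^ n * Real.exp 2) :=
      mul_le_mul_of_nonneg_left (h2.trans h3) hn0.le
    have h7 : (n:ℝ) * (sr n ^ n * Real.exp 2) = sr n * Real.exp 2 := by rw [← mul_assoc, h4]
    have h8 : sr n * Real.exp 2 ≤ 1 * 7.5 := mul_le_mul hs1.le h5 (Real.exp_pos _).le zero_le_one
    linarith
  have htow := tower_abs (by linarith : (1:ℝ) ≤ n) ha1 ha2 ha3 ha4 (n + 1)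
  -- the sum of the positions
  have hsum : ∀ w, w ≤ N → ∑ u ∈ Finset.range w, a u ≤ 8 * a w := by
    intro w
    induction w with
    | zero => intro _; simp; linarith [ha1 0 (by omega)]
    | succ w ih =>
      intro hw
      rw [Finset.sum_range_succ]
      have h1 := ih (by omega)
      have h2 : 9 / 8 * a w ≤ a (w + 1) := zz_ratio hn hcr (hpr w)
      linarith
  have hprod : ∏ u ∈ Finset.range N, (a (u + 1) * Real.exp (-(a u / n))) ≤
      ∏ u ∈ Finset.range N, (n * pr n c (l + 1 + u) ^ (n - 1)) := by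
    apply Finset.prod_le_prod
    · intro u hu
      rw [Finset.mem_range] at hu
      have := ha1 (u + 1) (by omega)
      positivity
    · intro u _
      have h1 := (mult_ge hn hc0 (l + u)).1
      have h2 : l + 1 + u = l + u + 1 := by omega
      rw [h2]
      exact h1
  have hexp : ∏ u ∈ Finset.range N, (a (u + 1) * Real.exp (-(a u / n))) =
      (∏ u ∈ Finset.range N, a (u + 1)) * Real.exp (-((∑ u ∈ Finset.range N, a u) / n)) := by
    rw [Finset.prod_mul_distrib, ← Real.exp_sum, Finset.sum_neg_distrib, Finset.sum_div]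
  have hexp2 : Real.exp (-96) ≤ Real.exp (-((∑ u ∈ Finset.range N, a u) / n)) := by
    rw [Real.exp_le_exp, neg_le_neg_iff, div_le_iff₀ hn0]
    have := hsum N le_rfl
    linarith
  rw [hexp] at hprod
  have hapos : 0 ≤ ∏ u ∈ Finset.range N, a (u + 1) :=
    Finset.prod_nonneg (fun u hu => by
      rw [Finset.mem_range] at hu
      linarith [ha1 (u + 1) (by omega)])
  have hprod2 : (∏ u ∈ Finset.range N, a (u + 1)) * Real.exp (-96) ≤
      ∏ u ∈ Finset.range N, (n * pr n c (l + 1 + u) ^ (n - 1)) :=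
    (mul_le_mul_of_nonneg_left hexp2 hapos).trans hprod
  -- split off the first factor
  have hsplit : ∏ u ∈ Finset.range N, (n * pr n c (l + 1 + u) ^ (n - 1)) =
      (∏ u ∈ Finset.range v, (n * pr n c (l + 2 + u) ^ (n - 1))) *
        (n * pr n c (l + 1) ^ (n - 1)) := by
    rw [hN, Finset.prod_range_succ']
    congr 1
    apply Finset.prod_congr rfl
    intro u _
    rw [show l + 1 + (u + 1) = l + 2 + u by omega]
  have hfirst : n * pr n c (l + 1) ^ (n - 1) ≤ Real.exp 30 := by
    refine ((mult_ge hn hc0 l).2).trans ?_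
    refine (zz_succ_le hn hc0 hcs l).trans ?_
    rw [Real.exp_le_exp]
    exact ha4
  have hgr := dr_growth (n := n) hc0.le (l + 2) v
  have hdr0 := dr_nonneg (n := n) hc0.le (l + 2)
  set Q := ∏ u ∈ Finset.range v, (n * pr n c (l + 2 + u) ^ (n - 1)) with hQ
  have hQ0 : 0 ≤ Q := Finset.prod_nonneg (fun u _ => by
    have := pr_nonneg (n := n) hc0.le (l + 2 + u)
    positivity)
  set Aa := ∏ u ∈ Finset.range N, a (u + 1) with hAa
  have h10 : Aa * Real.exp (-96) ≤ Q * Real.exp 30 := by
    rw [hsplit] at hprod2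
    exact hprod2.trans (mul_le_mul_of_nonneg_left hfirst hQ0)
  have h11 : Aa ≤ Q * Real.exp 126 := by
    have h12 : Aa = Aa * Real.exp (-96) * Real.exp 96 := by
      rw [mul_assoc, ← Real.exp_add]; norm_num
    have h13 : Real.exp 126 = Real.exp 30 * Real.exp 96 := by rw [← Real.exp_add]; norm_num
    rw [h12, h13, ← mul_assoc]
    exact mul_le_mul_of_nonneg_right h10 (Real.exp_pos _).le
  calc (∏ j ∈ Finset.range (n + 1), ff^[j] (n:ℝ)) * dr n c (l + 2)
      ≤ ((Nat.factorial 30 : ℝ) * Aa) * dr n c (l + 2) := mul_le_mul_of_nonneg_right htow hdr0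
    _ ≤ ((Nat.factorial 30 : ℝ) * (Q * Real.exp 126)) * dr n c (l + 2) := by
        apply mul_le_mul_of_nonneg_right _ hdr0
        exact mul_le_mul_of_nonneg_left h11 (by positivity)
    _ = ((Nat.factorial 30 : ℝ) * Real.exp 126) * (Q * dr n c (l + 2)) := by ring
    _ ≤ _ := mul_le_mul_of_nonneg_left hgr (by positivity)

end Pool.Agent.Run7.h734.LC
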