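import Mathlib
import Pool.Prelude.Def_F_c31e40fa
import Pool.Agent.Run7.h734.LC.Tower

set_option autoImplicit false

open Set Topology Filter Metric N62a1eb23 Pool.Agent.H712R2 Pool.Agent.N228.LC

namespace Pool.Agent.Run7.h734.LC

theorem sr_add_le {n : ℕ} (hn : 2 ≤ n) : sr n + 1 / n ≤ 1 := by
  have hnr : (2:ℝ) ≤ n := by exact_mod_cast hn
  have hn0 : (0:ℝ) < n := by linarith
  have h0 : 0 ≤ 1 - 1 / (n:ℝ) := by
    have : 1 / (n:ℝ) ≤ 1 := by rw [div_le_one hn0]; linarith
    linarith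
  have h1 := one_add_mul_le_pow (a := -(1 / (n:ℝ))) (by
    have : 1 / (n:ℝ) ≤ 1 := by rw [div_le_one hn0]; linarith
    linarith) (n - 1)
  have hd1 : ((n - 1 : ℕ) : ℝ) = (n : ℝ) - 1 := by
    rw [Nat.cast_sub (by omega)]; simp
  rw [hd1] at h1
  have h2 : 1 + ((n:ℝ) - 1) * -(1 / n) = 1 / n := by field_simp; ring
  have h3 : (1 + -(1 / (n:ℝ))) = 1 - 1 / n := by ring
  rw [h2, h3] at h1
  have h1' : sr n ^ (n - 1) ≤ (1 - 1 / (n:ℝ)) ^ (n - 1) := by rw [sr_pow hn]; exact h1
  have h4 : sr n ≤ 1 - 1 / n := le_of_pow_le_pow_left₀ (by omega) h0 h1'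
  linarith

theorem pr_mono_c {n : ℕ} {c c' : ℝ} (hc' : 0 ≤ c') (h : c' ≤ c) (k : ℕ) :
    pr n c' k ≤ pr n c k := by
  induction k with
  | zero => simp [pr]
  | succ k ih =>
    rw [pr, pr]
    have := pow_le_pow_left₀ (pr_nonneg (n := n) hc' k) ih n
    linarith

theorem continuous_pr (n k : ℕ) : Continuous (fun c => pr n c k) := by
  induction k with
  | zero => simpa [pr] using continuous_const
  | succ k ih =>
    have : (fun c => pr n c (k + 1)) = fun c => pr n c k ^ n + c := by funext c; rfl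
    rw [this]
    exact (ih.pow n).add continuous_id

/-- the value `3` is attained by some parameter in every scale -/
theorem exists_phase {n : ℕ} (hn : 2 ≤ n) {τ : ℝ} (hτ0 : 0 < τ) (hτ : 40 * n * τ ≤ 1) :
    ∃ σ : ℝ, τ / 4 ≤ σ ∧ σ ≤ τ ∧ ∃ K, pr n (rr n + σ) K = 3 := by
  have hnr : (2:ℝ) ≤ n := by exact_mod_cast hn
  have hr0 := rr_pos hn
  have hs := sr_half hn
  have hs1 := sr_lt_one hn
  obtain ⟨hkp1, hkp2⟩ := kp_bounds hn
  have hkp0 : 0 < kp n := by linarith
  set c := rr n + τ with hc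
  set c' := rr n + τ / 4 with hc'
  have hcr : rr n < c := by linarith
  have hcr' : rr n < c' := by linarith
  have hcc : c' ≤ c := by linarith
  have hmono := pr_strictMono hn hcr
  have hmono' := pr_strictMono hn hcr'
  set w := Real.sqrt (τ / 4 / kp n) with hw
  have hw2 : w ^ 2 = τ / 4 / kp n := Real.sq_sqrt (by positivity)
  have hw0 : 0 < w := Real.sqrt_pos.mpr (by positivity)
  have hkw : kp n * w ^ 2 = τ / 4 := by rw [hw2]; field_simp
  have hτn : τ ≤ 1 / 80 := by nlinarith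
  have hw_half : w < 1 / 2 := by
    have h1 : w ^ 2 < (1 / 2) ^ 2 := by
      have : (n:ℝ) / 4 * w ^ 2 ≤ τ / 4 := by
        rw [← hkw]; exact mul_le_mul_of_nonneg_right hkp1 (sq_nonneg _)
      nlinarith
    exact lt_of_pow_lt_pow_left₀ 2 (by norm_num) h1
  have hw2τ : 2 * τ ≤ w := by
    have h1 : (2 * τ) ^ 2 ≤ w ^ 2 := by
      have h2 : τ / 4 ≤ n * w ^ 2 := by
        rw [← hkw]; exact mul_le_mul_of_nonneg_right hkp2 (sq_nonneg _)
      have h3 : n * (4 * τ ^ 2) ≤ τ / 4 := by nlinarith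
      have h4 : (n:ℝ) * (4 * τ ^ 2) ≤ n * w ^ 2 := h3.trans h2
      have h5 := le_of_mul_le_mul_left h4 (by linarith)
      nlinarith
    exact le_of_sq_le_sq h1 hw0.le
  classical
  have hex : ∃ j, sr n - w ≤ pr n c j := pr_unbounded hn hcr _
  set j1 := Nat.find hex with hj1
  have hj1s : sr n - w ≤ pr n c j1 := Nat.find_spec hex
  have hj1pos : j1 ≠ 0 := by
    intro h
    rw [h] at hj1s
    simp only [pr] at hj1s
    linarith
  obtain ⟨j0, hj0⟩ : ∃ j0, j1 = j0 + 1 := ⟨j1 - 1, by omega⟩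
  have hj0s : pr n c j0 < sr n - w := by
    have := Nat.find_min hex (m := j0) (by omega)
    linarith [not_le.mp this]
  have hj0s' : pr n c' j0 < sr n - w := (pr_mono_c (by linarith) hcc j0).trans_lt hj0s
  have hslow := slow hn (c := c') (w := w) (τ := τ / 4) (by linarith) (by rw [hc']; linarith)
    (by linarith) hw0.le hkw.le hj0s' 3 (by push_cast; linarith)
  have hlag0 : pr n c' (j0 + 3 + 1) ≤ pr n c (j0 + 3) := by
    have h1 := pr_step hn (c := c) (by linarith) (j0 + 1)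
    have h2 := pr_step hn (c := c) (by linarith) (j0 + 2)
    rw [hj0] at hj1s
    have h3 : c - rr n = τ := by rw [hc]; ring
    rw [h3] at h1 h2
    have h4 : j0 + 1 + 3 = j0 + 3 + 1 := by omega
    rw [h4] at hslow
    push_cast at hslow
    have h5 : j0 + 1 + 1 = j0 + 2 := by omega
    have h6 : j0 + 2 + 1 = j0 + 3 := by omega
    rw [h5] at h1
    rw [h6] at h2
    linarith
  have hlag : ∀ i, j0 + 3 ≤ i → pr n c' (i + 1) ≤ pr n c i := by
    intro i hi
    induction i, hi using Nat.le_induction with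
    | base => exact hlag0
    | succ i hi ih =>
      show pr n c' (i + 1) ^ n + c' ≤ pr n c i ^ n + c
      have := pow_le_pow_left₀ (pr_nonneg (n := n) (c := c') (by linarith) (i + 1)) ih n
      linarith
  have hex3 : ∃ k, 3 ≤ pr n c k := pr_unbounded hn hcr _
  set K := Nat.find hex3 with hK
  have hKs : 3 ≤ pr n c K := Nat.find_spec hex3
  have hK' : pr n c' K ≤ 3 := by
    rcases Nat.lt_or_ge K (j0 + 4) with h | h
    · have h1 : pr n c' K ≤ pr n c' (j0 + 3 + 1) := hmono'.monotone (by omega)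
      have h4 : j0 + 1 + 3 = j0 + 3 + 1 := by omega
      rw [h4] at hslow
      push_cast at hslow
      linarith
    · have h1 := hlag (K - 1) (by omega)
      rw [Nat.sub_add_cancel (by omega)] at h1
      have h2 := Nat.find_min hex3 (m := K - 1) (by omega)
      linarith [not_le.mp h2]
  obtain ⟨e, he, he3⟩ := intermediate_value_Icc hcc (continuous_pr n K).continuousOn
    (show (3:ℝ) ∈ Icc (pr n c' K) (pr n c K) from ⟨hK', hKs⟩)
  refine ⟨e - rr n, by linarith [he.1], by linarith [he.2], K, ?_⟩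
  have : rr n + (e - rr n) = e := by ring
  rw [this]
  exact he3

/-- the constant -/
noncomputable def C0 : ℝ := 1920 * ((Nat.factorial 30 : ℝ) * Real.exp 126)

theorem C0_ge : 1 ≤ C0 := by
  unfold C0
  have h1 : (1:ℝ) ≤ (Nat.factorial 30 : ℝ) := by
    exact_mod_cast Nat.one_le_iff_ne_zero.mpr (Nat.factorial_ne_zero _)
  have h2 : 1 ≤ Real.exp 126 := Real.one_le_exp (by norm_num)
  nlinarith

/-- The product of `n` and of all its truncated iterated logarithms. -/
noncomputable def Lam (n : ℕ) : ℝ := ∏ j ∈ Finset.range (n + 1), ff^[j] (n:ℝ)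

/-- **Distance from the parameters beyond the cusp to the Multibrot set.** -/
theorem fine_dist {n : ℕ} (hn : 2 ≤ n) {σ : ℝ} (hσ0 : 0 < σ) (hσ : 40 * n * σ ≤ 1) {K : ℕ}
    (hK : pr n (rr n + σ) K = 3) {ρ : ℝ} (hρ : 0 < ρ)
    (hb : ∀ w ∈ ball (((rr n + σ : ℝ) : ℂ)) ρ, w ∉ multibrotSet n) :
    ρ * Lam n ≤ C0 * (n * σ * Real.sqrt (n * σ)) := by
  have hnr : (2:ℝ) ≤ n := by exact_mod_cast hn
  have hn0 : (0:ℝ) < n := by linarith
  have hr0 := rr_pos hn
  have hs := sr_half hn
  have hs1 := sr_lt_one hn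
  obtain ⟨hkp1, hkp2⟩ := kp_bounds hn
  have hkp0 : 0 < kp n := by linarith
  set c := rr n + σ with hc
  have hcr : rr n < c := by linarith
  have hc0 : 0 < c := by linarith
  have hσn : σ ≤ 1 / (40 * n) := by
    rw [le_div_iff₀ (by positivity)]; linarith
  have hrs : rr n = sr n - sr n / n := by rw [rr_eq hn]; ring
  have h40 : 1 / (40 * (n:ℝ)) ≤ sr n / n / 2 := by
    have : sr n / n / 2 = sr n / (2 * n) := by field_simp
    rw [this, div_le_div_iff₀ (by positivity) (by positivity)]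
    nlinarith
  have hsn0 : 0 < sr n / n := by positivity
  have hcs : c ≤ sr n := by rw [hc]; linarith
  have hc1 : c * (1 + 1 / n) ≤ sr n + 1 / n := by
    have h1 : c * (1 / n) ≤ 1 * (1 / n) := mul_le_mul_of_nonneg_right (by linarith) (by positivity)
    linarith
  have hmono := pr_strictMono hn hcr
  have hsn := sr_add_le hn
  classical
  have hex : ∃ j, sr n + 1 / n ≤ pr n c j := pr_unbounded hn hcr _
  set l1 := Nat.find hex with hl1
  have hl1s : sr n + 1 / n ≤ pr n c l1 := Nat.find_spec hex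
  have hn1 : 0 < 1 / (n:ℝ) := by positivity
  have hl1pos : l1 ≠ 0 := by
    intro h
    rw [h] at hl1s
    simp only [pr] at hl1s
    linarith
  obtain ⟨l, hl⟩ : ∃ l, l1 = l + 1 := ⟨l1 - 1, by omega⟩
  have hls : pr n c l < sr n + 1 / n := by
    have := Nat.find_min hex (m := l) (by omega)
    linarith [not_le.mp this]
  rw [hl] at hl1s
  have hp3 : pr n c (l + 1) < 3 := by
    rw [pr]
    have h1 : pr n c l ^ n ≤ 1 := pow_le_one₀ (pr_nonneg hc0.le l) (by linarith)
    linarith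
  have hKl : l + 2 ≤ K := by
    rw [← hK] at hp3
    have := hmono.lt_iff_lt.mp hp3
    omega
  obtain ⟨v, rfl⟩ : ∃ v, K = l + 2 + v := ⟨K - (l + 2), by omega⟩
  have h1 := final_deriv hn hcr hcs hc1 hls hl1s hK
  have h2 := dist_bound hn hc0 (by linarith) (K := l + 2 + v) (by rw [hK]; norm_num) hρ hb
  rw [hK] at h2
  have hlog3 : Real.log 3 ≤ 2 := by
    have := Real.log_le_sub_one_of_pos (show (0:ℝ) < 3 by norm_num); linarith
  have hlog30 : 0 ≤ Real.log 3 := Real.log_nonneg (by norm_num)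
  have h3 : ρ * dr n c (l + 2 + v) ≤ 60 := by
    refine h2.trans ?_
    have : (3 + 3 * c) * Real.log 3 ≤ 6 * 2 := by
      apply mul_le_mul _ hlog3 hlog30 (by norm_num)
      linarith
    linarith
  -- the derivative at the exit of the gate
  have h4 := gate_deriv hn hσ0 hσ (k := l + 1) (by linarith)
  rw [← hc] at h4
  have h5 : 1 / (4 * (n:ℝ)) ≤ pr n c (l + 1 + 1) - pr n c (l + 1) := by
    rw [pr_succ_sub]
    have h6 := (gg_quad hn (pr_nonneg hc0.le (l + 1))).2 (by linarith)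
    have h7 : (n:ℝ) / 4 * (1 / n) ^ 2 ≤ kp n * (pr n c (l + 1) - sr n) ^ 2 := by
      apply mul_le_mul hkp1 _ (by positivity) hkp0.le
      apply pow_le_pow_left₀ (by positivity)
      linarith
    have h8 : (n:ℝ) / 4 * (1 / n) ^ 2 = 1 / (4 * n) := by field_simp
    linarith
  have h6 : Real.sqrt (n * σ) / n ≤ Real.sqrt (σ / kp n) := by
    apply Real.le_sqrt_of_sq_le
    rw [div_pow, Real.sq_sqrt (by positivity)]
    rw [div_le_div_iff₀ (by positivity) hkp0]
    have : n * σ * kp n ≤ n * σ * n := mul_le_mul_of_nonneg_left hkp2 (by positivity)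
    nlinarith
  have hsq : Real.sqrt (n * σ) * Real.sqrt (n * σ) = n * σ := Real.mul_self_sqrt (by positivity)
  have hsq0 : 0 < Real.sqrt (n * σ) := Real.sqrt_pos.mpr (by positivity)
  have h7 : 1 / (32 * (n * σ * Real.sqrt (n * σ))) ≤ dr n c (l + 2) := by
    refine le_trans ?_ h4
    have h8 : 1 / (4 * (n:ℝ)) * (Real.sqrt (n * σ) / n / (8 * σ ^ 2)) ≤
        (pr n c (l + 1 + 1) - pr n c (l + 1)) * (Real.sqrt (σ / kp n) / (8 * σ ^ 2)) := by
      apply mul_le_mul h5 _ (by positivity) (le_trans (by positivity) h5)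
      exact div_le_div_of_nonneg_right h6 (by positivity)
    refine le_trans (le_of_eq ?_) h8
    set q := Real.sqrt (n * σ) with hq
    have hσe : σ = q * q / n := by rw [hsq]; field_simp
    rw [hσe]
    field_simp
    ring
  have hLam0 : 0 ≤ Lam n := Finset.prod_nonneg (fun j _ => by
    linarith [ff_iter_ge (by linarith : (1:ℝ) ≤ n) j])
  set T := n * σ * Real.sqrt (n * σ) with hT
  have hT0 : 0 < T := by positivity
  have hF0 : 0 < (Nat.factorial 30 : ℝ) * Real.exp 126 := by positivity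
  have h9 : Lam n * (1 / (32 * T)) ≤ ((Nat.factorial 30 : ℝ) * Real.exp 126) * dr n c (l + 2 + v) :=
    (mul_le_mul_of_nonneg_left h7 hLam0).trans h1
  have h10 : ρ * (Lam n * (1 / (32 * T))) ≤ ((Nat.factorial 30 : ℝ) * Real.exp 126) * 60 := by
    calc ρ * (Lam n * (1 / (32 * T))) ≤
        ρ * (((Nat.factorial 30 : ℝ) * Real.exp 126) * dr n c (l + 2 + v)) :=
          mul_le_mul_of_nonneg_left h9 hρ.le
      _ = ((Nat.factorial 30 : ℝ) * Real.exp 126) * (ρ * dr n c (l + 2 + v)) := by ring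
      _ ≤ _ := mul_le_mul_of_nonneg_left h3 hF0.le
  have h11 : ρ * (Lam n * (1 / (32 * T))) = ρ * Lam n / (32 * T) := by field_simp
  rw [h11, div_le_iff₀ (by positivity)] at h10
  unfold C0
  linarith

end Pool.Agent.Run7.h734.LC
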