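import Mathlib
import Pool.Prelude.Def_F_c31e40fa
import Pool.Agent.Run7.h734.LC.Fine

set_option autoImplicit false

open Set Topology Filter Metric N62a1eb23 Pool.Agent.H712R2 Pool.Agent.N228.LC

namespace Pool.Agent.Run7.h734.LC

theorem conj_mem {n : ℕ} (hn : 2 ≤ n) {x : ℂ} (hx : x ∈ multibrotSet n) :
    (starRingEnd ℂ) x ∈ multibrotSet n := by
  rw [mem_multibrot_iff hn] at hx ⊢
  intro k
  rw [P_conj, RCLike.norm_conj]
  exact hx k

/-- separation through the real axis -/
theorem real_sep {n : ℕ} (hn : 2 ≤ n) {c d : ℝ} (hd : d < c - rr n) {x : ℂ}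
    (hx : x ∈ multibrotSet n) (hxd : dist x (c:ℂ) ≤ d) :
    x ≠ (starRingEnd ℂ) x ∧
    ∀ S : Set ℂ, S ⊆ multibrotSet n → IsPreconnected S → x ∈ S → (starRingEnd ℂ) x ∈ S →
      c - rr n - d ≤ Metric.diam S := by
  have hre : c - d ≤ x.re := by
    have h1 := Complex.abs_re_le_norm (x - c)
    rw [← dist_eq_norm] at h1
    have h2 := h1.trans hxd
    rw [Complex.sub_re, Complex.ofReal_re, abs_le] at h2
    linarith [h2.1]
  have him : x.im ≠ 0 := by
    intro h
    have h1 : x = ((x.re : ℝ) : ℂ) := by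
      apply Complex.ext <;> simp [h]
    apply real_escape hn (t := x.re) (by linarith)
    rw [← h1]; exact hx
  refine ⟨fun h => him (Complex.conj_eq_iff_im.mp h.symm), ?_⟩
  intro S hS hSc hxS hyS
  have h0 : (0:ℝ) ∈ Complex.im '' S := by
    have hpre : IsPreconnected (Complex.im '' S) := hSc.image _ Complex.continuous_im.continuousOn
    have hord := hpre.ordConnected
    have h1 : x.im ∈ Complex.im '' S := ⟨x, hxS, rfl⟩
    have h2 : -x.im ∈ Complex.im '' S := ⟨_, hyS, Complex.conj_im x⟩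
    rcases lt_or_gt_of_ne him with h | h
    · exact hord.out h1 h2 ⟨h.le, by linarith⟩
    · exact hord.out h2 h1 ⟨by linarith, h.le⟩
  obtain ⟨q, hqS, hq⟩ := h0
  have hqr : q.re ≤ rr n := by
    by_contra hcon
    push Not at hcon
    apply real_escape hn hcon
    have h1 : q = ((q.re : ℝ) : ℂ) := by
      apply Complex.ext <;> simp [hq]
    rw [← h1]; exact hS hqS
  have hb : Bornology.IsBounded S := (isCompact_multibrot hn).isBounded.subset hS
  have h1 := Metric.dist_le_diam_of_mem hb hxS hqS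
  have h2 := Complex.abs_re_le_norm (x - q)
  rw [← dist_eq_norm, Complex.sub_re] at h2
  have h3 := (le_abs_self _).trans h2
  linarith

theorem Lam_ge {n : ℕ} (hn : 2 ≤ n) : (n:ℝ) ≤ Lam n := by
  have hnr : (2:ℝ) ≤ n := by exact_mod_cast hn
  unfold Lam
  rw [Finset.prod_range_succ']
  simp only [Function.iterate_zero, id_eq]
  have h1 : ∀ R, 1 ≤ ∏ k ∈ Finset.range R, ff^[k + 1] (n:ℝ) := by
    intro R
    induction R with
    | zero => simp
    | succ R ih =>
      rw [Finset.prod_range_succ]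
      have := ff_iter_ge (by linarith : (1:ℝ) ≤ n) (R + 1)
      nlinarith
  exact le_mul_of_one_le_left (by linarith) (h1 n)

/-- the second constant -/
noncomputable def C1 : ℝ := 1 / (512 * C0 ^ 2)

theorem C1_pos : 0 < C1 := by
  have := C0_ge
  unfold C1; positivity

/-- **Fine scales**: pairs of points -/
theorem fine_points {n : ℕ} (hn : 2 ≤ n) {t : ℝ} (ht0 : 0 < t) (ht1 : t ≤ 1) :
    ∃ x ∈ multibrotSet n, x ≠ (starRingEnd ℂ) x ∧
      dist x ((starRingEnd ℂ) x) ≤ t * Real.sqrt t / Lam n ∧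
      ∀ S : Set ℂ, S ⊆ multibrotSet n → IsPreconnected S → x ∈ S → (starRingEnd ℂ) x ∈ S →
        C1 * t / n ≤ Metric.diam S := by
  have hnr : (2:ℝ) ≤ n := by exact_mod_cast hn
  have hn0 : (0:ℝ) < n := by linarith
  have hC := C0_ge
  have hLam := Lam_ge hn
  have hLam0 : 0 < Lam n := by linarith
  set a : ℝ := 1 / (64 * C0 ^ 2) with ha
  have ha0 : 0 < a := by positivity
  have hCC : 1 ≤ C0 ^ 2 := by nlinarith
  have ha1 : a ≤ 1 / 64 := by
    rw [ha]
    exact one_div_le_one_div_of_le (by norm_num) (by linarith)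
  have hasq : Real.sqrt a = 1 / (8 * C0) := by
    rw [ha, show 1 / (64 * C0 ^ 2) = (1 / (8 * C0)) ^ 2 by field_simp; norm_num]
    exact Real.sqrt_sq (by positivity)
  set τ : ℝ := a * t / n with hτ
  have hτ0 : 0 < τ := by positivity
  have hnτ : n * τ = a * t := by rw [hτ]; field_simp
  have hτ1 : 40 * n * τ ≤ 1 := by
    have : 40 * n * τ = 40 * (a * t) := by rw [← hnτ]; ring
    rw [this]; nlinarith
  obtain ⟨σ, hσ1, hσ2, K, hK⟩ := exists_phase hn hτ0 hτ1
  have hσ0 : 0 < σ := by linarith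
  have hσn : 40 * n * σ ≤ 1 := by
    have : 40 * n * σ ≤ 40 * n * τ := mul_le_mul_of_nonneg_left hσ2 (by positivity)
    linarith
  set c : ℝ := rr n + σ with hc
  have hcM : (c:ℂ) ∉ multibrotSet n := real_escape hn (by linarith)
  have hcomp := isCompact_multibrot hn
  have hne : (multibrotSet n).Nonempty := (isConnected_multibrot hn).nonempty
  obtain ⟨x, hxM, hxd⟩ := hcomp.exists_infDist_eq_dist hne (c:ℂ)
  set d := infDist (c:ℂ) (multibrotSet n) with hd
  have hd0 : 0 < d := by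
    rw [hd]
    exact (hcomp.isClosed.notMem_iff_infDist_pos hne).mp hcM
  have hball : ∀ w ∈ ball (c:ℂ) d, w ∉ multibrotSet n := by
    intro w hw hwM
    rw [mem_ball, dist_comm] at hw
    have := infDist_le_dist_of_mem (x := (c:ℂ)) hwM
    linarith
  have hfine := fine_dist hn hσ0 hσn hK hd0 hball
  -- comparison of the scales
  have hnσ : n * σ ≤ a * t := by rw [← hnτ]; exact mul_le_mul_of_nonneg_left hσ2 hn0.le
  have hsq1 : Real.sqrt (n * σ) ≤ Real.sqrt a * Real.sqrt t := by
    rw [← Real.sqrt_mul ha0.le]; exact Real.sqrt_le_sqrt hnσ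
  have hsqt1 : Real.sqrt t ≤ 1 := by rw [Real.sqrt_le_one]; exact ht1
  have hsqt0 : 0 < Real.sqrt t := Real.sqrt_pos.mpr ht0
  have hT : C0 * (n * σ * Real.sqrt (n * σ)) ≤ a * t * Real.sqrt t / 8 := by
    have h1 : n * σ * Real.sqrt (n * σ) ≤ a * t * (Real.sqrt a * Real.sqrt t) :=
      mul_le_mul hnσ hsq1 (Real.sqrt_nonneg _) (by positivity)
    rw [hasq] at h1
    calc C0 * (n * σ * Real.sqrt (n * σ)) ≤ C0 * (a * t * (1 / (8 * C0) * Real.sqrt t)) :=
          mul_le_mul_of_nonneg_left h1 (by linarith)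
      _ = a * t * Real.sqrt t / 8 := by field_simp
  have h2 : d * Lam n ≤ a * t * Real.sqrt t / 8 := hfine.trans hT
  have h3 : 2 * d ≤ t * Real.sqrt t / Lam n := by
    rw [le_div_iff₀ hLam0]
    have : a * (t * Real.sqrt t) ≤ 1 * (t * Real.sqrt t) :=
      mul_le_mul_of_nonneg_right (by linarith) (by positivity)
    nlinarith
  have h4 : d ≤ σ / 2 := by
    have h5 : d * n ≤ a * t / 8 := by
      calc d * n ≤ d * Lam n := mul_le_mul_of_nonneg_left hLam hd0.le
        _ ≤ a * t * Real.sqrt t / 8 := h2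
        _ ≤ a * t * 1 / 8 := by
            apply div_le_div_of_nonneg_right _ (by norm_num)
            exact mul_le_mul_of_nonneg_left hsqt1 (by positivity)
        _ = a * t / 8 := by ring
    have h6 : a * t / 4 ≤ n * σ := by
      have := mul_le_mul_of_nonneg_left hσ1 hn0.le
      have h7 : n * (τ / 4) = a * t / 4 := by rw [← hnτ]; ring
      linarith
    have h7 : n * d ≤ n * (σ / 2) := by linarith
    exact le_of_mul_le_mul_left h7 hn0
  have hxd' : dist x (c:ℂ) ≤ d := by rw [dist_comm]; exact hxd.ge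
  obtain ⟨h8, h9⟩ := real_sep hn (c := c) (d := d) (by rw [hc]; linarith) hxM hxd'
  refine ⟨x, hxM, h8, ?_, ?_⟩
  · have h10 : dist x ((starRingEnd ℂ) x) ≤ dist x (c:ℂ) + dist (c:ℂ) ((starRingEnd ℂ) x) :=
      dist_triangle _ _ _
    have h11 : dist (c:ℂ) ((starRingEnd ℂ) x) = dist x (c:ℂ) := by
      rw [dist_eq_norm, dist_eq_norm]
      have : (c:ℂ) - (starRingEnd ℂ) x = (starRingEnd ℂ) (c - x) := by
        rw [map_sub, Complex.conj_ofReal]
      rw [this, RCLike.norm_conj, norm_sub_rev]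
    linarith
  · intro S hS hSc hxS hyS
    have h12 := h9 S hS hSc hxS hyS
    refine le_trans ?_ h12
    have h13 : C1 * t / n = τ / 8 := by
      rw [hτ, ha]; unfold C1
      field_simp
      norm_num
    rw [h13, hc]
    linarith

theorem fine_modulus {n : ℕ} (hn : 2 ≤ n) {δ : ℝ} (hδ0 : 0 < δ) (hδ : δ * Lam n ≤ 1) :
    C1 * (δ * Lam n) ^ (2 / 3 : ℝ) / n ≤ modulus (multibrotSet n) δ := by
  have hnr : (2:ℝ) ≤ n := by exact_mod_cast hn
  have hLam := Lam_ge hn
  have hLam0 : 0 < Lam n := by linarith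
  set y := δ * Lam n with hy
  have hy0 : 0 < y := by positivity
  set t : ℝ := y ^ (2 / 3 : ℝ) with ht
  have ht0 : 0 < t := Real.rpow_pos_of_pos hy0 _
  have ht1 : t ≤ 1 := Real.rpow_le_one hy0.le hδ (by norm_num)
  have hts : t * Real.sqrt t = y := by
    rw [Real.sqrt_eq_rpow, ht, ← Real.rpow_mul hy0.le, ← Real.rpow_add hy0]
    norm_num
  obtain ⟨x, hxM, -, hxd, hS⟩ := fine_points hn ht0 ht1
  have hyM := conj_mem hn hxM
  refine (le_joining hn hxM hyM hS).trans (le_modulus hn hxM hyM ?_)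
  rw [hts] at hxd
  have : y / Lam n = δ := by rw [hy]; field_simp
  rw [this] at hxd
  exact hxd

end Pool.Agent.Run7.h734.LC
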