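import Mathlib

set_option autoImplicit false

namespace Pool.Agent.Run7.h734.LC

/-- iterated logarithm -/
noncomputable def L (N : ℝ) (j : ℕ) : ℝ := Real.log^[j] N

theorem L_zero (N : ℝ) : L N 0 = N := rfl

theorem L_succ (N : ℝ) (j : ℕ) : L N (j + 1) = Real.log (L N j) :=
  Function.iterate_succ_apply' _ _ _

theorem exp_two_mul {x : ℝ} (hx : 0 ≤ x) : 2 * x ≤ Real.exp x := by
  have h := Real.quadratic_le_exp_of_nonneg hx
  nlinarith [sq_nonneg (x - 1)]

theorem exp_five {x : ℝ} (hx : 5 ≤ x) : 29.6 * x ≤ Real.exp x := by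
  have h1 : Real.exp x = Real.exp 5 * Real.exp (x - 5) := by rw [← Real.exp_add]; congr 1; ring
  have h2 : (148:ℝ) ≤ Real.exp 5 := by
    have h3 : Real.exp 5 = (Real.exp 1) ^ 5 := by rw [← Real.exp_nat_mul]; norm_num
    rw [h3]
    have h4 := Real.exp_one_gt_d9
    calc (148:ℝ) ≤ 2.7182818283 ^ 5 := by norm_num
      _ ≤ (Real.exp 1) ^ 5 := pow_le_pow_left₀ (by norm_num) h4.le 5
  have h5 := Real.add_one_le_exp (x - 5)
  rw [h1]
  nlinarith

/-- Hypothesis of largeness: all the iterated logarithms up to order `k` are at least `5`. -/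
def Big (N : ℝ) (k : ℕ) : Prop := ∀ j ≤ k, 5 ≤ L N j

theorem Big.mono {N : ℝ} {k l : ℕ} (h : Big N k) (hl : l ≤ k) : Big N l := fun j hj => h j (hj.trans hl)

theorem exp_L {N : ℝ} {k j : ℕ} (h : Big N k) (hj : j < k) : Real.exp (L N (j + 1)) = L N j := by
  rw [L_succ]
  exact Real.exp_log (by linarith [h j hj.le])

theorem L_half {N : ℝ} {k j : ℕ} (h : Big N k) (hj : j < k) : 2 * L N (j + 1) ≤ L N j := by
  rw [← exp_L h hj]
  exact exp_two_mul (by linarith [h (j + 1) hj])

theorem L_anti {N : ℝ} {k : ℕ} (h : Big N k) : ∀ {i j : ℕ}, i ≤ j → j ≤ k → L N j ≤ L N i := by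
  intro i j hij hj
  induction j, hij using Nat.le_induction with
  | base => exact le_rfl
  | succ j hij ih =>
    have h1 := ih (by omega)
    have h2 := L_half h (show j < k by omega)
    have h3 := h (j + 1) hj
    linarith

theorem L_sub {N : ℝ} {k : ℕ} (h : Big N (k + 1)) : (k : ℝ) + 1 ≤ L N 1 := by
  have key : ∀ j, j ≤ k → (j:ℝ) + L N (j + 1) ≤ L N 1 := by
    intro j
    induction j with
    | zero => intro _; simp
    | succ j ih =>
      intro hj
      have h1 := ih (by omega)
      have h2 := L_half h (show j + 1 < k + 1 by omega)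
      have h3 := h (j + 2) (by omega)
      push_cast
      linarith
  have h1 := key k le_rfl
  have h2 := h (k + 1) le_rfl
  linarith

/-- the tower condition implies largeness -/
theorem big_of_tower {N : ℝ} {k : ℕ} (h : Real.exp^[k] 5 ≤ N) : Big N k := by
  have key : ∀ j, ∀ x : ℝ, 5 ≤ x → 5 ≤ Real.exp^[j] x := by
    intro j
    induction j with
    | zero => intro x hx; simpa using hx
    | succ j ih =>
      intro x hx
      rw [Function.iterate_succ_apply]
      apply ih
      have := Real.add_one_le_exp x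
      linarith
  have key2 : ∀ j, j ≤ k → Real.exp^[k - j] 5 ≤ L N j := by
    intro j
    induction j with
    | zero => intro _; rw [Nat.sub_zero, L_zero]; exact h
    | succ j ih =>
      intro hj
      have h1 := ih (by omega)
      have h2 : k - j = (k - (j + 1)) + 1 := by omega
      rw [h2, Function.iterate_succ_apply'] at h1
      rw [L_succ]
      rwa [Real.le_log_iff_exp_le (lt_of_lt_of_le (Real.exp_pos _) h1)]
  intro j hj
  exact (key _ 5 le_rfl).trans (key2 j hj)

/-- product of the shifted iterated logarithms -/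
theorem prod_shift {N : ℝ} {m : ℕ} (h : Big N (m + 2)) :
    (1 - 4 * L N (m + 2) / L N (m + 1)) * ∏ j ∈ Finset.range (m + 1), L N (j + 1) ≤
      ∏ j ∈ Finset.range (m + 1), (L N (j + 1) - 2 * L N (m + 2)) := by
  set lam := L N (m + 2) with hlam
  have hlam5 : 5 ≤ lam := h _ le_rfl
  have hbig : ∀ j, j ≤ m → 29.6 * lam ≤ L N (j + 1) := by
    intro j hj
    have h1 : L N (m + 1) ≤ L N (j + 1) := L_anti h (by omega) (by omega)
    have h2 := exp_L h (show m + 1 < m + 2 by omega)
    have h3 := exp_five hlam5
    rw [← hlam] at h2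
    linarith
  have key : ∀ i, i ≤ m →
      (1 - 4 * lam / L N (i + 1)) * ∏ j ∈ Finset.range (i + 1), L N (j + 1) ≤
      ∏ j ∈ Finset.range (i + 1), (L N (j + 1) - 2 * lam) := by
    intro i
    induction i with
    | zero =>
      intro _
      have h1 := hbig 0 (by omega)
      simp only [zero_add, Finset.range_one, Finset.prod_singleton]
      have h2 : 0 < L N 1 := by
        have : (0:ℕ) + 1 = 1 := rfl
        rw [this] at h1; linarith
      have h3 : (1 - 4 * lam / L N 1) * L N 1 = L N 1 - 4 * lam := by field_simp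
      rw [h3]; linarith
    | succ i ih =>
      intro hi
      have h1 := ih (by omega)
      have h2 := hbig i (by omega)
      have h3 := hbig (i + 1) hi
      have h4 := L_half h (show i + 1 < m + 2 by omega)
      rw [Finset.prod_range_succ, Finset.prod_range_succ _ (i + 1)]
      set A := ∏ j ∈ Finset.range (i + 1), L N (j + 1) with hA
      set B := ∏ j ∈ Finset.range (i + 1), (L N (j + 1) - 2 * lam) with hB
      have hApos : 0 < A := Finset.prod_pos (fun j hj => by
        have := hbig j (by rw [Finset.mem_range] at hj; omega)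
        linarith)
      set X := L N (i + 1) with hX
      set Y := L N (i + 1 + 1) with hY
      have hXpos : 0 < X := by linarith
      have hYpos : 0 < Y := by linarith
      have h5 : (1 - 4 * lam / X) * A * (Y - 2 * lam) ≤ B * (Y - 2 * lam) :=
        mul_le_mul_of_nonneg_right h1 (by linarith)
      refine le_trans ?_ h5
      have h6 : (1 - 4 * lam / Y) * (A * Y) = A * (Y - 4 * lam) := by field_simp
      have h7 : (1 - 4 * lam / X) * A * (Y - 2 * lam) = A * ((1 - 4 * lam / X) * (Y - 2 * lam)) := by
        ring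
      rw [h6, h7]
      apply mul_le_mul_of_nonneg_left _ hApos.le
      have h8 : 4 * lam / X * (Y - 2 * lam) ≤ 2 * lam := by
        rw [div_mul_eq_mul_div, div_le_iff₀ hXpos]
        nlinarith
      nlinarith
  exact key m le_rfl

end Pool.Agent.Run7.h734.LC
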