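import Mathlib
import Pool.Agent.Run7.h734.LC.Iter

set_option autoImplicit false

open Complex Set Topology Filter

namespace Pool.Agent.Run7.h734.LC

/-- `E n u = n (exp (u / n) - 1)` -/
noncomputable def E (n : ℝ) (u : ℂ) : ℂ := n * (Complex.exp (u / n) - 1)

theorem E_sub {n : ℝ} (hn : 0 < n) {u : ℂ} (hu : ‖u‖ ≤ n) : ‖E n u - u‖ ≤ ‖u‖ ^ 2 / n := by
  have hnC : (n:ℂ) ≠ 0 := by exact_mod_cast hn.ne'
  have h1 : ‖u / n‖ ≤ 1 := by
    rw [norm_div, Complex.norm_real, Real.norm_eq_abs, abs_of_pos hn, div_le_one hn]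
    exact hu
  have h2 := Complex.norm_exp_sub_one_sub_id_le h1
  have h3 : E n u - u = n * (Complex.exp (u / n) - 1 - u / n) := by
    unfold E; field_simp
  rw [h3, norm_mul, Complex.norm_real, Real.norm_eq_abs, abs_of_pos hn]
  calc n * ‖Complex.exp (u / n) - 1 - u / n‖ ≤ n * ‖u / n‖ ^ 2 :=
        mul_le_mul_of_nonneg_left h2 hn.le
    _ = ‖u‖ ^ 2 / n := by
        rw [norm_div, Complex.norm_real, Real.norm_eq_abs, abs_of_pos hn]
        field_simp

theorem E_lip {n : ℝ} (hn : 0 < n) {u w : ℂ} (hu : u.re ≤ n) (hw : w.re ≤ n) :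
    ‖E n u - E n w‖ ≤ 3 * ‖u - w‖ := by
  have hnC : (n:ℂ) ≠ 0 := by exact_mod_cast hn.ne'
  have hconv : Convex ℝ {z : ℂ | z.re ≤ 1} := convex_halfSpace_re_le 1
  have h1 : ‖Complex.exp (w / n) - Complex.exp (u / n)‖ ≤ 3 * ‖w / n - u / n‖ := by
    apply hconv.norm_image_sub_le_of_norm_hasDerivWithin_le (f := Complex.exp)
      (f' := Complex.exp)
    · intro z _
      exact (Complex.hasDerivAt_exp z).hasDerivWithinAt
    · intro z hz
      rw [Complex.norm_exp]
      have h2 : Real.exp z.re ≤ Real.exp 1 := Real.exp_le_exp.mpr hz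
      have h3 := Real.exp_one_lt_d9
      linarith
    · show (u / n).re ≤ 1
      rw [Complex.div_ofReal_re, div_le_one hn]; exact hu
    · show (w / n).re ≤ 1
      rw [Complex.div_ofReal_re, div_le_one hn]; exact hw
  have h2 : E n u - E n w = n * (Complex.exp (u / n) - Complex.exp (w / n)) := by
    unfold E; ring
  rw [h2, norm_mul, Complex.norm_real, Real.norm_eq_abs, abs_of_pos hn, norm_sub_rev]
  have h3 : ‖w / (n:ℂ) - u / n‖ = ‖u - w‖ / n := by
    rw [← sub_div, norm_div, Complex.norm_real, Real.norm_eq_abs, abs_of_pos hn, norm_sub_rev]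
  rw [h3] at h1
  calc n * ‖Complex.exp (w / n) - Complex.exp (u / n)‖ ≤ n * (3 * (‖u - w‖ / n)) :=
        mul_le_mul_of_nonneg_left h1 hn.le
    _ = 3 * ‖u - w‖ := by field_simp

theorem log_lip {R : ℝ} (hR : 0 < R) {u w : ℂ} (hu : R ≤ u.re) (hw : R ≤ w.re) :
    ‖Complex.log u - Complex.log w‖ ≤ (1 / R) * ‖u - w‖ := by
  have hconv : Convex ℝ {z : ℂ | R ≤ z.re} := convex_halfSpace_re_ge R
  apply hconv.norm_image_sub_le_of_norm_hasDerivWithin_le (f := Complex.log) (f' := fun z => z⁻¹)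
  · intro z hz
    have hz' : R ≤ z.re := hz
    exact (Complex.hasDerivAt_log (Or.inl (by linarith))).hasDerivWithinAt
  · intro z hz
    have hz' : R ≤ z.re := hz
    rw [norm_inv, one_div]
    apply inv_anti₀ hR
    exact hz'.trans ((le_abs_self _).trans (Complex.abs_re_le_norm z))
  · exact hw
  · exact hu

/-- the box around the `i`-th unknown -/
def box (N : ℝ) (m : ℕ) (i : ℕ) : Set ℂ :=
  Icc (L N (i + 1) - 2 * L N (m + 2)) (L N (i + 1)) ×ℂ Icc (-5) 5

structure Num (lam M : ℝ) : Prop where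
  h5 : 5 ≤ lam
  hM : 29.6 * lam ≤ M

theorem Num.log_low {lam M : ℝ} (h : Num lam M) {r : ℝ} (hr : M - 2 * lam ≤ r) :
    Real.log M - 0.08 ≤ Real.log r := by
  obtain ⟨h5, hM⟩ := h
  have h1 : 0 < M - 2 * lam := by linarith
  have h2 : Real.log (M - 2 * lam) ≤ Real.log r := Real.log_le_log h1 hr
  have h3 := Real.log_le_sub_one_of_pos (show 0 < M / (M - 2 * lam) by
    apply div_pos _ h1; linarith)
  rw [Real.log_div (by linarith) h1.ne'] at h3
  have h4 : M / (M - 2 * lam) ≤ 1.08 := by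
    rw [div_le_iff₀ h1]; linarith
  linarith

theorem Num.log_up {lam M : ℝ} (h : Num lam M) {r : ℝ} (hr0 : 0 < r) (hr : r ≤ M + 5) :
    Real.log r ≤ Real.log M + 0.04 := by
  obtain ⟨h5, hM⟩ := h
  have h0 : 0 < M := by linarith
  have h2 : Real.log r ≤ Real.log (M + 5) := Real.log_le_log hr0 hr
  have h3 := Real.log_le_sub_one_of_pos (show 0 < (M + 5) / M by
    apply div_pos _ h0; linarith)
  rw [Real.log_div (by linarith) h0.ne'] at h3
  have h4 : (M + 5) / M ≤ 1.04 := by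
    rw [div_le_iff₀ h0]; linarith
  linarith

theorem Num.box {lam M : ℝ} (h : Num lam M) {w : ℂ}
    (hw : w ∈ Icc (M - 2 * lam) M ×ℂ Icc (-5) 5) :
    138 ≤ w.re ∧ w ≠ 0 ∧ Real.log M - 0.08 ≤ Real.log ‖w‖ ∧ Real.log ‖w‖ ≤ Real.log M + 0.04 := by
  have h5 := h.h5
  have hM := h.hM
  have h1 : M - 2 * lam ≤ w.re := hw.1.1
  have h2 : w.re ≤ M := hw.1.2
  have h3 : -5 ≤ w.im := hw.2.1
  have h4 : w.im ≤ 5 := hw.2.2
  have h6 : w.re ≤ ‖w‖ := (le_abs_self _).trans (Complex.abs_re_le_norm w)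
  have h7 : ‖w‖ ≤ M + 5 := by
    refine (Complex.norm_le_abs_re_add_abs_im w).trans ?_
    have : |w.re| ≤ M := by rw [abs_le]; constructor <;> linarith
    have : |w.im| ≤ 5 := by rw [abs_le]; constructor <;> linarith
    linarith
  refine ⟨by linarith, ?_, h.log_low (h1.trans h6), h.log_up (by linarith) h7⟩
  rintro rfl
  simp at h1
  linarith

theorem abs_arg_le {w : ℂ} (hw : 0 < w.re) : |w.arg| ≤ Real.pi / 2 :=
  Complex.abs_arg_le_pi_div_two_iff.mpr hw.le

end Pool.Agent.Run7.h734.LC
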