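import Mathlib
import Pool.Agent.Run7.h734.LC.Root

set_option autoImplicit false

open Complex Set Topology Filter

namespace Pool.Agent.Run7.h734.LC

/-- basic numerical facts -/
theorem num_of_big {N : ℝ} {m i : ℕ} (h : Big N (m + 2)) (hi : i ≤ m) :
    Num (L N (m + 2)) (L N (i + 1)) := by
  have h5 : 5 ≤ L N (m + 2) := h _ le_rfl
  refine ⟨h5, ?_⟩
  have h1 : L N (m + 1) ≤ L N (i + 1) := L_anti h (by omega) (by omega)
  have h2 := exp_L h (show m + 1 < m + 2 by omega)
  have h3 := exp_five h5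
  linarith

theorem N_facts {N : ℝ} {m : ℕ} (h : Big N (m + 2)) :
    148 ≤ L N 1 ∧ Real.exp (L N 1) = N ∧ 0 < N ∧ 2 * L N 1 ≤ N ∧
      (2 * L N 1) ^ 2 / N ≤ 0.01 ∧ L N 1 * L N 1 / N ≤ 0.01 := by
  have h1 := (num_of_big h (Nat.zero_le m)).hM
  have h2 := (num_of_big h (Nat.zero_le m)).h5
  have h3 : 148 ≤ L N 1 := by
    have : (0:ℕ) + 1 = 1 := rfl
    rw [this] at h1; linarith
  have h4 : Real.exp (L N 1) = N := exp_L h (show 0 < m + 2 by omega)
  have hN : 0 < N := by rw [← h4]; exact Real.exp_pos _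
  have h5 := Real.pow_div_factorial_le_exp (L N 1) (by linarith) 5
  have h6 : ((Nat.factorial 5 : ℕ) : ℝ) = 120 := by norm_num [Nat.factorial]
  rw [h4, h6] at h5
  set x := L N 1 with hx
  have h7 : (148:ℝ) ^ 3 ≤ x ^ 3 := pow_le_pow_left₀ (by norm_num) h3 3
  have h8 : x ^ 5 = x ^ 2 * x ^ 3 := by ring
  have h9 : (3241792 / 120) * x ^ 2 ≤ N := by
    have : (148:ℝ) ^ 3 = 3241792 := by norm_num
    rw [this] at h7
    have h10 : x ^ 2 * 3241792 ≤ x ^ 2 * x ^ 3 := mul_le_mul_of_nonneg_left h7 (sq_nonneg _)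
    rw [div_le_iff₀ (by norm_num), h8] at h5
    linarith
  refine ⟨h3, h4, hN, ?_, ?_, ?_⟩
  · nlinarith
  · rw [div_le_iff₀ hN]; nlinarith
  · rw [div_le_iff₀ hN]; nlinarith

theorem E_mem {N : ℝ} {m i : ℕ} (h : Big N (m + 2)) (hi : i ≤ m) {u : ℂ}
    (h1 : L N (i + 1) - L N (m + 2) - 0.2 ≤ u.re) (h2 : u.re ≤ L N (i + 1) - 4)
    (h3 : |u.im| ≤ 4.8) : ‖u‖ ≤ 2 * L N 1 ∧
      E N u ∈ Icc (L N (i + 1) - 2 * L N (m + 2)) (L N (i + 1)) ×ℂ Icc (-5) 5 := by
  obtain ⟨n1, n2, n3, n4, n5, -⟩ := N_facts h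
  have hnum := num_of_big h hi
  have hl5 := hnum.h5
  have hlM := hnum.hM
  have hanti : L N (i + 1) ≤ L N 1 := L_anti h (by omega) (by omega)
  have hre0 : 0 ≤ u.re := by linarith
  have hnorm : ‖u‖ ≤ 2 * L N 1 := by
    refine (Complex.norm_le_abs_re_add_abs_im u).trans ?_
    rw [abs_of_nonneg hre0]
    linarith
  have hE := E_sub n3 (hnorm.trans n4)
  have hE2 : ‖u‖ ^ 2 / N ≤ 0.01 := by
    refine le_trans ?_ n5
    apply div_le_div_of_nonneg_right _ n3.le
    exact pow_le_pow_left₀ (norm_nonneg _) hnorm 2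
  have hE3 := hE.trans hE2
  have hre := (Complex.abs_re_le_norm (E N u - u)).trans hE3
  have him := (Complex.abs_im_le_norm (E N u - u)).trans hE3
  rw [Complex.sub_re, abs_le] at hre
  rw [Complex.sub_im, abs_le] at him
  rw [abs_le] at h3
  refine ⟨hnorm, ⟨⟨?_, ?_⟩, ⟨?_, ?_⟩⟩⟩
  · linarith [hre.1]
  · linarith [hre.2]
  · linarith [him.1, h3.1]
  · linarith [him.2, h3.2]

theorem mem_first {N : ℝ} {m : ℕ} (h : Big N (m + 2)) {z : ℂ} (hz : z ∈ box N m m) :
    let u : ℂ := ((L N 1 : ℝ) : ℂ) + Real.pi * I - Complex.log z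
    ‖u‖ ≤ 2 * L N 1 ∧ u.re ≤ L N 1 ∧ E N u ∈ box N m 0 := by
  intro u
  have hzn := num_of_big h (le_refl m)
  obtain ⟨hz1, hz0, hz2, hz3⟩ := hzn.box hz
  have hl5 := hzn.h5
  have e1 : Real.log (L N (m + 1)) = L N (m + 2) := (L_succ N (m + 1)).symm
  rw [e1] at hz2 hz3
  have hare : u.re = L N 1 - Real.log ‖z‖ := by simp [u, Complex.log_re]
  have haim : u.im = Real.pi - z.arg := by simp [u, Complex.log_im]
  have harg := abs_arg_le (show 0 < z.re by linarith)
  have hpi : Real.pi < 3.15 := Real.pi_lt_d2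
  have hpi0 := Real.pi_pos
  rw [abs_le] at harg
  have key := E_mem h (Nat.zero_le m) (u := u) (by
      rw [hare]; simp only [zero_add]; linarith) (by
      rw [hare]; simp only [zero_add]; linarith) (by
      rw [haim, abs_le]; constructor <;> linarith [harg.1, harg.2])
  exact ⟨key.1, by rw [hare]; linarith, key.2⟩

theorem mem_next {N : ℝ} {m i : ℕ} (h : Big N (m + 2)) (hi : i < m) {w z : ℂ}
    (hw : w ∈ box N m i) (hz : z ∈ box N m m) :
    let u : ℂ := Complex.log w - Complex.log z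
    ‖u‖ ≤ 2 * L N 1 ∧ u.re ≤ L N 1 ∧ E N u ∈ box N m (i + 1) := by
  intro u
  have hzn := num_of_big h (le_refl m)
  obtain ⟨hz1, hz0, hz2, hz3⟩ := hzn.box hz
  have hwn := num_of_big h hi.le
  obtain ⟨hw1, hw0, hw2, hw3⟩ := hwn.box hw
  have hl5 := hzn.h5
  have e1 : Real.log (L N (m + 1)) = L N (m + 2) := (L_succ N (m + 1)).symm
  have e2 : Real.log (L N (i + 1)) = L N (i + 1 + 1) := (L_succ N (i + 1)).symm
  rw [e1] at hz2 hz3
  rw [e2] at hw2 hw3
  have hare : u.re = Real.log ‖w‖ - Real.log ‖z‖ := by simp [u, Complex.log_re]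
  have haim : u.im = w.arg - z.arg := by simp [u, Complex.log_im]
  have harg := abs_arg_le (show 0 < z.re by linarith)
  have harg2 := abs_arg_le (show 0 < w.re by linarith)
  have hpi : Real.pi < 3.15 := Real.pi_lt_d2
  rw [abs_le] at harg harg2
  have key := E_mem h (show i + 1 ≤ m by omega) (u := u) (by
      rw [hare]; linarith) (by
      rw [hare]; linarith) (by
      rw [haim, abs_le]; constructor <;> linarith [harg.1, harg.2, harg2.1, harg2.2])
  have h3 : L N (i + 1 + 1) ≤ L N 1 := L_anti h (by omega) (by omega)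
  exact ⟨key.1, by rw [hare]; linarith, key.2⟩

/-- the backward orbit -/
theorem exists_vec {N : ℝ} {m : ℕ} (h : Big N (m + 2)) :
    ∃ v : ℕ → ℂ, (∀ i ≤ m, v i ∈ box N m i) ∧
      v 0 = E N (((L N 1 : ℝ) : ℂ) + Real.pi * I - Complex.log (v m)) ∧
      ∀ i < m, v (i + 1) = E N (Complex.log (v i) - Complex.log (v m)) := by
  obtain ⟨n1, n2, n3, n4, n5, -⟩ := N_facts h
  set K : Set (Fin (m + 1) → ℂ) := Set.pi Set.univ (fun i => box N m i) with hK
  have hKmem : ∀ v : Fin (m + 1) → ℂ, v ∈ K ↔ ∀ i : Fin (m + 1), v i ∈ box N m i := by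
    intro v; rw [hK, Set.mem_univ_pi]
  have hKclosed : IsClosed K :=
    isClosed_set_pi (fun i _ => isClosed_Icc.reProdIm isClosed_Icc)
  set Ψ : (Fin (m + 1) → ℂ) → (Fin (m + 1) → ℂ) := fun v =>
    Fin.cons (α := fun _ => ℂ)
      (E N (((L N 1 : ℝ) : ℂ) + Real.pi * I - Complex.log (v (Fin.last m))))
      (fun i : Fin m => E N (Complex.log (v i.castSucc) - Complex.log (v (Fin.last m)))) with hΨ
  have hlast : ∀ v ∈ K, v (Fin.last m) ∈ box N m m := by
    intro v hv
    have := (hKmem v).mp hv (Fin.last m)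
    simpa using this
  have hcast : ∀ v ∈ K, ∀ i : Fin m, v i.castSucc ∈ box N m i := by
    intro v hv i
    have := (hKmem v).mp hv i.castSucc
    simpa using this
  have hmaps : MapsTo Ψ K K := by
    intro v hv
    rw [hKmem]
    intro i
    refine Fin.cases ?_ (fun j => ?_) i
    · simp only [hΨ, Fin.cons_zero, Fin.val_zero]
      exact (mem_first h (hlast v hv)).2.2
    · simp only [hΨ, Fin.cons_succ, Fin.val_succ]
      exact (mem_next h j.2 (hcast v hv j) (hlast v hv)).2.2
  have hle : L N 1 ≤ N := by linarith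
  have hlip : LipschitzOnWith (1 / 2 : NNReal) Ψ K := by
    apply LipschitzOnWith.of_dist_le_mul
    intro v hv w hw
    rw [dist_pi_le_iff (by positivity)]
    have hcoe : ((1 / 2 : NNReal) : ℝ) = 1 / 2 := by norm_num
    rw [hcoe]
    set D := dist v w with hD
    have hd : ∀ i, ‖v i - w i‖ ≤ D := by
      intro i
      rw [← dist_eq_norm]
      exact dist_le_pi_dist v w i
    have hlogd : ∀ i : Fin (m + 1), ‖Complex.log (v i) - Complex.log (w i)‖ ≤ (1 / 138) * D := by
      intro i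
      have h1 := ((num_of_big h (show (i:ℕ) ≤ m by omega)).box ((hKmem v).mp hv i)).1
      have h2 := ((num_of_big h (show (i:ℕ) ≤ m by omega)).box ((hKmem w).mp hw i)).1
      refine (log_lip (by norm_num) h1 h2).trans ?_
      exact mul_le_mul_of_nonneg_left (hd i) (by norm_num)
    have hD0 : 0 ≤ D := dist_nonneg
    intro i
    refine Fin.cases ?_ (fun j => ?_) i
    · simp only [hΨ, Fin.cons_zero]
      rw [dist_eq_norm]
      have h1 := (mem_first h (hlast v hv)).2.1
      have h2 := (mem_first h (hlast w hw)).2.1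
      refine (E_lip n3 (h1.trans hle) (h2.trans hle)).trans ?_
      have h3 : (((L N 1 : ℝ) : ℂ) + Real.pi * I - Complex.log (v (Fin.last m))) -
        (((L N 1 : ℝ) : ℂ) + Real.pi * I - Complex.log (w (Fin.last m))) =
        -(Complex.log (v (Fin.last m)) - Complex.log (w (Fin.last m))) := by ring
      rw [h3, norm_neg]
      have := hlogd (Fin.last m)
      linarith
    · simp only [hΨ, Fin.cons_succ]
      rw [dist_eq_norm]
      have h1 := (mem_next h j.2 (hcast v hv j) (hlast v hv)).2.1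
      have h2 := (mem_next h j.2 (hcast w hw j) (hlast w hw)).2.1
      refine (E_lip n3 (h1.trans hle) (h2.trans hle)).trans ?_
      have h3 : (Complex.log (v j.castSucc) - Complex.log (v (Fin.last m))) -
        (Complex.log (w j.castSucc) - Complex.log (w (Fin.last m))) =
        (Complex.log (v j.castSucc) - Complex.log (w j.castSucc)) -
        (Complex.log (v (Fin.last m)) - Complex.log (w (Fin.last m))) := by ring
      rw [h3]
      have h4 := hlogd (Fin.last m)
      have h5 := hlogd j.castSucc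
      have h6 := norm_sub_le (Complex.log (v j.castSucc) - Complex.log (w j.castSucc))
        (Complex.log (v (Fin.last m)) - Complex.log (w (Fin.last m)))
      linarith
  have hcontr : ContractingWith (1 / 2 : NNReal) (hmaps.restrict Ψ K K) := by
    refine ⟨?_, hlip.mapsToRestrict hmaps⟩
    rw [← NNReal.coe_lt_coe]; push_cast; norm_num
  have hmem : (fun i : Fin (m + 1) => ((L N (i + 1) : ℝ) : ℂ)) ∈ K := by
    rw [hKmem]
    intro i
    have h5 := (num_of_big h (le_refl m)).h5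
    refine ⟨⟨?_, ?_⟩, ⟨?_, ?_⟩⟩ <;> (simp; try linarith)
  obtain ⟨v, hvK, hv, -⟩ := ContractingWith.exists_fixedPoint' hKclosed.isComplete hmaps hcontr hmem
    (edist_ne_top _ _)
  have hfix : Ψ v = v := hv
  refine ⟨fun i => if hi : i < m + 1 then v ⟨i, hi⟩ else 0, ?_, ?_, ?_⟩
  · intro i hi
    have hi' : i < m + 1 := by omega
    simp only [hi', dif_pos]
    exact (hKmem v).mp hvK ⟨i, hi'⟩
  · have h0 : (0:ℕ) < m + 1 := by omega
    have h1 : m < m + 1 := by omega
    simp only [h0, h1, dif_pos]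
    have := congrFun hfix 0
    simp only [hΨ, Fin.cons_zero] at this
    exact this.symm
  · intro i hi
    have h0 : i < m + 1 := by omega
    have h1 : m < m + 1 := by omega
    have h2 : i + 1 < m + 1 := by omega
    simp only [h0, h1, h2, dif_pos]
    have := congrFun hfix (Fin.succ ⟨i, hi⟩)
    simp only [hΨ, Fin.cons_succ] at this
    exact this.symm

end Pool.Agent.Run7.h734.LC
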