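import Mathlib
import Pool.Agent.Run7.h734.LC.Fix

set_option autoImplicit false

open Complex Set Topology Filter

namespace Pool.Agent.Run7.h734.LC

theorem abs_arg_le_div {w : ℂ} (hw : 0 < w.re) : |w.arg| ≤ |w.im| / w.re := by
  have h1 : |w.arg| < Real.pi / 2 := Complex.abs_arg_lt_pi_div_two_iff.mpr (Or.inl hw)
  have h2 := Real.le_tan (abs_nonneg w.arg) h1
  refine h2.trans (le_of_eq ?_)
  rcases le_or_gt 0 w.arg with h | h
  · rw [abs_of_nonneg h, Complex.tan_arg, abs_of_nonneg (Complex.arg_nonneg_iff.mp h)]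
  · have h3 : w.im < 0 := Complex.arg_neg_iff.mp h
    rw [abs_of_neg h, Real.tan_neg, Complex.tan_arg, abs_of_neg h3, neg_div]

theorem E_im {N : ℝ} (hN : 0 < N) {u : ℂ} {B : ℝ} (hu : u.re ≤ B) :
    |(E N u).im| ≤ Real.exp (B / N) * |u.im| := by
  have h1 : (E N u).im = N * (Real.exp (u.re / N) * Real.sin (u.im / N)) := by
    unfold E
    rw [Complex.im_ofReal_mul, Complex.sub_im, Complex.one_im, Complex.exp_im,
      Complex.div_ofReal_re, Complex.div_ofReal_im, sub_zero]
  rw [h1, abs_mul, abs_mul, abs_of_pos hN, abs_of_pos (Real.exp_pos _)]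
  have h2 : |Real.sin (u.im / N)| ≤ |u.im| / N := by
    refine Real.abs_sin_le_abs.trans ?_
    rw [abs_div, abs_of_pos hN]
  have h3 : Real.exp (u.re / N) ≤ Real.exp (B / N) :=
    Real.exp_le_exp.mpr (div_le_div_of_nonneg_right hu hN.le)
  calc N * (Real.exp (u.re / N) * |Real.sin (u.im / N)|)
      ≤ N * (Real.exp (B / N) * (|u.im| / N)) := by
        apply mul_le_mul_of_nonneg_left _ hN.le
        exact mul_le_mul h3 h2 (abs_nonneg _) (Real.exp_pos _).le
    _ = _ := by field_simp

/-- the final angle bound -/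
theorem angle {N : ℝ} {m : ℕ} (h : Big N (m + 2)) {v : ℕ → ℂ} (hv : ∀ i ≤ m, v i ∈ box N m i)
    (h0 : v 0 = E N (((L N 1 : ℝ) : ℂ) + Real.pi * I - Complex.log (v m)))
    (hs : ∀ i < m, v (i + 1) = E N (Complex.log (v i) - Complex.log (v m))) :
    |(v m).arg| * ∏ j ∈ Finset.range (m + 1), L N (j + 1) ≤ 4 := by
  obtain ⟨n1, n2, n3, n4, n5, n6⟩ := N_facts h
  set lam := L N (m + 2) with hlam
  have hpi0 := Real.pi_pos
  have hnum : ∀ i ≤ m, Num lam (L N (i + 1)) := fun i hi => num_of_big h hi
  set D : ℕ → ℝ := fun i => ∏ j ∈ Finset.range i, (L N (j + 1) - 2 * lam) with hD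
  set tau : ℝ := Real.exp (L N 1 / N) with htau
  have htau1 : 1 ≤ tau := by
    apply Real.one_le_exp
    apply div_nonneg _ n3.le
    linarith
  set A : ℝ := |(v m).arg| with hA
  have hA0 : 0 ≤ A := abs_nonneg _
  have hDs : ∀ i, D (i + 1) = D i * (L N (i + 1) - 2 * lam) := by
    intro i; rw [hD]; simp only; rw [Finset.prod_range_succ]
  have hD0 : D 0 = 1 := by simp [hD]
  have hr : ∀ i ≤ m, 138 ≤ L N (i + 1) - 2 * lam := by
    intro i hi
    have h1 := (hnum i hi).hM
    have h2 := (hnum i hi).h5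
    linarith
  have hDpos : ∀ i ≤ m + 1, 1 ≤ D i := by
    intro i
    induction i with
    | zero => intro _; rw [hD0]
    | succ i ih =>
      intro hi
      have h1 := ih (by omega)
      have h2 := hr i (by omega)
      rw [hDs]; nlinarith
  have hθ : ∀ i ≤ m, (L N (i + 1) - 2 * lam) * |(v i).arg| ≤ |(v i).im| := by
    intro i hi
    have h1 : L N (i + 1) - 2 * lam ≤ (v i).re := (hv i hi).1.1
    have h2 := hr i hi
    have h3 := abs_arg_le_div (show 0 < (v i).re by linarith)
    rw [le_div_iff₀ (by linarith)] at h3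
    have h4 : (L N (i + 1) - 2 * lam) * |(v i).arg| ≤ (v i).re * |(v i).arg| :=
      mul_le_mul_of_nonneg_right h1 (abs_nonneg _)
    linarith
  have key : ∀ i ≤ m, D (i + 1) * |(v i).arg| ≤ tau ^ (i + 1) * (Real.pi + 2 * A * D i) := by
    intro i
    induction i with
    | zero =>
      intro hi
      rw [hDs, hD0, one_mul, mul_one, zero_add, pow_one]
      refine (hθ 0 hi).trans ?_
      rw [h0]
      refine (E_im n3 (mem_first h (hv m le_rfl)).2.1).trans ?_
      apply mul_le_mul_of_nonneg_left _ (by linarith)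
      have h1 : (((L N 1 : ℝ) : ℂ) + Real.pi * I - Complex.log (v m)).im =
          Real.pi - (v m).arg := by simp [Complex.log_im]
      rw [h1]
      have h2 := abs_sub Real.pi (v m).arg
      rw [abs_of_pos hpi0] at h2
      linarith
    | succ i ih =>
      intro hi
      have h1 := ih (by omega)
      have h2 := hθ (i + 1) hi
      rw [hs i (by omega)] at h2
      have h3 := E_im n3 (mem_next h (show i < m by omega) (hv i (by omega)) (hv m le_rfl)).2.1
      have h4 : (Complex.log (v i) - Complex.log (v m)).im = (v i).arg - (v m).arg := by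
        simp [Complex.log_im]
      rw [h4] at h3
      have h5 := abs_sub (v i).arg (v m).arg
      rw [← hs i (by omega)] at h2 h3
      have hDi := hDpos (i + 1) (by omega)
      have hDi' := hDpos i (by omega)
      have h6 : (L N (i + 1 + 1) - 2 * lam) * |(v (i + 1)).arg| ≤ tau * (|(v i).arg| + A) := by
        refine h2.trans (h3.trans ?_)
        exact mul_le_mul_of_nonneg_left h5 (by linarith)
      have h7 : D (i + 1 + 1) * |(v (i + 1)).arg| =
          D (i + 1) * ((L N (i + 1 + 1) - 2 * lam) * |(v (i + 1)).arg|) := by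
        rw [hDs (i + 1)]; ring
      rw [h7]
      have htp : 1 ≤ tau ^ (i + 1) := one_le_pow₀ htau1
      have h8 : 2 * D i ≤ D (i + 1) := by
        rw [hDs]; nlinarith [hr i (by omega)]
      calc D (i + 1) * ((L N (i + 1 + 1) - 2 * lam) * |(v (i + 1)).arg|)
          ≤ D (i + 1) * (tau * (|(v i).arg| + A)) :=
            mul_le_mul_of_nonneg_left h6 (by linarith)
        _ = tau * (D (i + 1) * |(v i).arg| + A * D (i + 1)) := by ring
        _ ≤ tau * (tau ^ (i + 1) * (Real.pi + 2 * A * D i) + tau ^ (i + 1) * (A * D (i + 1))) := by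
            apply mul_le_mul_of_nonneg_left _ (by linarith)
            have : A * D (i + 1) ≤ tau ^ (i + 1) * (A * D (i + 1)) :=
              le_mul_of_one_le_left (by positivity) htp
            linarith
        _ = tau ^ (i + 1 + 1) * (Real.pi + 2 * A * D i + A * D (i + 1)) := by ring
        _ ≤ tau ^ (i + 1 + 1) * (Real.pi + 2 * A * D (i + 1)) := by
            apply mul_le_mul_of_nonneg_left _ (by positivity)
            nlinarith
  have hm := key m le_rfl
  -- the power of tau
  have htaum : tau ^ (m + 1) ≤ 1.011 := by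
    have h1 : tau ^ (m + 1) = Real.exp (((m:ℝ) + 1) * (L N 1 / N)) := by
      rw [htau, ← Real.exp_nat_mul]; push_cast; rfl
    have h2 : (m:ℝ) + 1 ≤ L N 1 := L_sub (h.mono (by omega))
    have h3 : ((m:ℝ) + 1) * (L N 1 / N) ≤ 0.01 := by
      refine le_trans ?_ n6
      rw [mul_div_assoc]
      apply mul_le_mul_of_nonneg_right h2
      apply div_nonneg _ n3.le; linarith
    rw [h1]
    have h4 := Real.add_one_le_exp (-(((m:ℝ) + 1) * (L N 1 / N)))
    rw [Real.exp_neg] at h4
    set q := ((m:ℝ) + 1) * (L N 1 / N) with hq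
    have h5 : 0.99 ≤ (Real.exp q)⁻¹ := by linarith
    have h6 := Real.exp_pos q
    rw [le_inv_comm₀ (by norm_num) h6] at h5
    refine h5.trans (by norm_num)
  have hDm := hDs m
  have hrm := hr m le_rfl
  have hDmpos := hDpos m (by omega)
  have hDm1 : 138 * D m ≤ D (m + 1) := by rw [hDm]; nlinarith
  have hpi : Real.pi < 3.15 := Real.pi_lt_d2
  have h10 : D (m + 1) * A ≤ 1.011 * (3.15 + 2 * A * D m) := by
    refine hm.trans ?_
    apply mul_le_mul htaum _ (by positivity) (by norm_num)
    linarith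
  have h11 : A * D (m + 1) ≤ 3.24 := by
    have h12 : A * (138 * D m) ≤ A * D (m + 1) := mul_le_mul_of_nonneg_left hDm1 hA0
    nlinarith
  have hprod := prod_shift h
  have hM := (hnum m le_rfl).hM
  have h5 := (hnum m le_rfl).h5
  have h13 : 4 * lam / L N (m + 1) ≤ 0.136 := by
    rw [div_le_iff₀ (by linarith)]; linarith
  set Pi := ∏ j ∈ Finset.range (m + 1), L N (j + 1) with hPi
  have hPipos : 0 < Pi := Finset.prod_pos (fun j hj => by
    rw [Finset.mem_range] at hj
    have := (hnum j (by omega)).hM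
    linarith)
  have h14 : 0.864 * Pi ≤ D (m + 1) := by
    refine le_trans ?_ hprod
    apply mul_le_mul_of_nonneg_right _ hPipos.le
    linarith
  have h15 : A * (0.864 * Pi) ≤ A * D (m + 1) := mul_le_mul_of_nonneg_left h14 hA0
  linarith

end Pool.Agent.Run7.h734.LC
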