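import Mathlib
import Pool.Prelude.Def_F_c31e40fa
import Pool.Agent.N228.LC.Mod
import Pool.Agent.Run7.h734.LC.Angle

set_option autoImplicit false

open Complex Set Topology Filter N62a1eb23 Pool.Agent.H712R2 Pool.Agent.N228.LC

namespace Pool.Agent.Run7.h734.LC

theorem E_pow {n : ℕ} (hn : n ≠ 0) (u : ℂ) : (1 + E n u / n) ^ n = Complex.exp u := by
  have hnC : (n:ℂ) ≠ 0 := by exact_mod_cast hn
  have h1 : 1 + E n u / n = Complex.exp (u / n) := by
    unfold E
    push_cast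
    field_simp
    ring
  rw [h1, ← Complex.exp_nat_mul]
  congr 1
  field_simp

/-- real positive parameters do not have periodic critical orbit -/
theorem P_real_pos {n : ℕ} {t : ℝ} (ht : 0 < t) (k : ℕ) : ∃ s : ℝ, 0 ≤ s ∧ P n k (t:ℂ) = s ∧
    (k ≠ 0 → 0 < s) := by
  induction k with
  | zero => exact ⟨0, le_rfl, by simp [P_zero], fun h => absurd rfl h⟩
  | succ k ih =>
    obtain ⟨s, hs0, hs, -⟩ := ih
    refine ⟨s ^ n + t, by positivity, ?_, fun _ => by positivity⟩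
    rw [P_succ, hs]; push_cast; ring

/-- sector containment for a point with positive argument -/
theorem sectors {n : ℕ} (hn : 3 ≤ n) {a θ : ℝ} (h0 : 0 < θ) (h1 : θ < 2 * Real.pi) {x : ℂ}
    (hx : x = Complex.exp (⟨a, θ / ((n:ℝ) - 1)⟩ : ℂ)) :
    x ∈ sector (th n 0) (th n (0 + 1)) ∧
      (starRingEnd ℂ) x ∉ sector (th n 0) (th n (0 + 1)) := by
  have hnr : (3:ℝ) ≤ n := by exact_mod_cast hn
  have hm0 : 0 < (n:ℝ) - 1 := by linarith
  have hth0 : th n 0 = 0 := by unfold th; simp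
  have hth1 : th n (0 + 1) = 2 * Real.pi / ((n:ℝ) - 1) := by unfold th; simp
  have hpi := Real.pi_pos
  have h2 : 0 < θ / ((n:ℝ) - 1) := by positivity
  have h3 : θ / ((n:ℝ) - 1) < 2 * Real.pi / ((n:ℝ) - 1) := div_lt_div_of_pos_right h1 hm0
  refine ⟨⟨_, ⟨?_, ?_⟩, hx.symm⟩, ?_⟩
  · rw [hth0]; exact h2
  · rw [hth1]; exact h3
  · intro hmem
    have h4 : (starRingEnd ℂ) x ∈ sector (-(2 * Real.pi / ((n:ℝ) - 1))) 0 := by
      refine ⟨(starRingEnd ℂ) (⟨a, θ / ((n:ℝ) - 1)⟩ : ℂ), ⟨?_, ?_⟩, ?_⟩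
      · rw [Complex.conj_im]; linarith
      · rw [Complex.conj_im]; linarith
      · rw [hx, Complex.exp_conj]
    rw [hth0, hth1] at hmem
    have h5 := sector_disj (a := -(2 * Real.pi / ((n:ℝ) - 1))) (b := 0)
      (c := 2 * Real.pi / ((n:ℝ) - 1)) (by
        have : 2 * Real.pi / ((n:ℝ) - 1) ≤ Real.pi := by
          rw [div_le_iff₀ hm0]; nlinarith
        linarith)
    have h6 : (starRingEnd ℂ) x ∈ sector (-(2 * Real.pi / ((n:ℝ) - 1))) 0 ∩
      sector 0 (2 * Real.pi / ((n:ℝ) - 1)) := ⟨h4, hmem⟩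
    rw [h5] at h6
    exact h6

/-- separation of a point near the cusp direction from its conjugate -/
theorem sep_conj {n : ℕ} (hn : 3 ≤ n) {a θ : ℝ} (h0 : θ ≠ 0) (h1 : |θ| < 2 * Real.pi) {x : ℂ}
    (hx : x = Complex.exp (⟨a, θ / ((n:ℝ) - 1)⟩ : ℂ)) {S : Set ℂ} (hS : S ⊆ multibrotSet n)
    (hc : IsPreconnected S) (hxS : x ∈ S) (hyS : (starRingEnd ℂ) x ∈ S) :
    ‖x‖ - rr n ≤ Metric.diam S := by
  rcases lt_or_gt_of_ne h0 with h | h
  · have h2 : (starRingEnd ℂ) x = Complex.exp (⟨a, (-θ) / ((n:ℝ) - 1)⟩ : ℂ) := by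
      rw [hx, ← Complex.exp_conj]
      congr 1
      apply Complex.ext
      · simp
      · simp [neg_div]
    rw [abs_of_neg h] at h1
    obtain ⟨h3, h4⟩ := sectors hn (a := a) (θ := -θ) (by linarith) (by linarith) h2
    rw [Complex.conj_conj] at h4
    have h5 := diam_ge (by omega) 0 hS hc hyS hxS h3 h4
    have h6 := le_max_right ‖(starRingEnd ℂ) x‖ ‖x‖
    linarith
  · rw [abs_of_pos h] at h1
    obtain ⟨h3, h4⟩ := sectors hn (a := a) (θ := θ) h h1 hx
    have h5 := diam_ge (by omega) 0 hS hc hxS hyS h3 h4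
    have h6 := le_max_left ‖x‖ ‖(starRingEnd ℂ) x‖
    linarith

theorem dist_conj {n : ℕ} (hn : 3 ≤ n) {a θ B : ℝ} (ha : a ≤ 0) (hθ : |θ| ≤ B) {x : ℂ}
    (hx : x = Complex.exp (⟨a, θ / ((n:ℝ) - 1)⟩ : ℂ)) :
    dist x ((starRingEnd ℂ) x) ≤ 2 * B / ((n:ℝ) - 1) := by
  have hnr : (3:ℝ) ≤ n := by exact_mod_cast hn
  have hm0 : 0 < (n:ℝ) - 1 := by linarith
  rw [dist_eq_norm]
  have h1 : x - (starRingEnd ℂ) x = ((2 * x.im : ℝ) : ℂ) * I := by
    apply Complex.ext <;> simp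
    ring
  rw [h1, norm_mul, Complex.norm_I, mul_one, Complex.norm_real, Real.norm_eq_abs, abs_mul,
    abs_of_pos (by norm_num : (0:ℝ) < 2)]
  have h2 : |x.im| ≤ B / ((n:ℝ) - 1) := by
    rw [hx, Complex.exp_im]
    show |Real.exp a * Real.sin (θ / ((n:ℝ) - 1))| ≤ _
    rw [abs_mul, abs_of_pos (Real.exp_pos _)]
    have h3 : Real.exp a ≤ 1 := by rw [Real.exp_le_one_iff]; exact ha
    have h4 : |Real.sin (θ / ((n:ℝ) - 1))| ≤ |θ / ((n:ℝ) - 1)| := Real.abs_sin_le_abs
    rw [abs_div, abs_of_pos hm0] at h4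
    have h5 : |θ| / ((n:ℝ) - 1) ≤ B / ((n:ℝ) - 1) := div_le_div_of_nonneg_right hθ hm0.le
    calc Real.exp a * |Real.sin (θ / ((n:ℝ) - 1))| ≤ 1 * (B / ((n:ℝ) - 1)) :=
          mul_le_mul h3 (h4.trans h5) (abs_nonneg _) zero_le_one
      _ = _ := one_mul _
  rw [mul_div_assoc]
  linarith

/-- **Level `k ≥ 2`.** -/
theorem level {n m : ℕ} (h : Big n (m + 2)) :
    ∃ x : ℂ, P n (m + 3) x = 0 ∧ (∀ j, 1 ≤ j → j ≤ m + 2 → P n j x ≠ 0) ∧
      x ≠ (starRingEnd ℂ) x ∧
      dist x ((starRingEnd ℂ) x) ≤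
        8 / (((n:ℝ) - 1) * ∏ j ∈ Finset.range (m + 1), L n (j + 1)) ∧
      ∀ S : Set ℂ, S ⊆ multibrotSet n → IsPreconnected S → x ∈ S → (starRingEnd ℂ) x ∈ S →
        L n (m + 2) / ((n:ℝ) - 1) ≤ Metric.diam S := by
  obtain ⟨n1, n2, n3, n4, n5, n6⟩ := N_facts h
  have hn3 : 3 ≤ n := by
    have : (148:ℝ) ≤ n := by linarith
    have : (148:ℕ) ≤ n := by exact_mod_cast this
    omega
  have hnr : (3:ℝ) ≤ n := by exact_mod_cast hn3
  have hm0 : 0 < (n:ℝ) - 1 := by linarith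
  have hn0 : n ≠ 0 := by omega
  have hnC : (n:ℂ) ≠ 0 := by exact_mod_cast hn0
  have hmC : (n:ℂ) - 1 ≠ 0 := by
    intro h
    have : ((n:ℝ) - 1 : ℝ) = 0 := by exact_mod_cast h
    linarith
  obtain ⟨v, hv, h0, hs⟩ := exists_vec h
  have hang := angle h hv h0 hs
  have hzn := num_of_big h (le_refl m)
  obtain ⟨hz1, hz0, hz2, hz3⟩ := hzn.box (hv m le_rfl)
  have e1 : Real.log (L n (m + 1)) = L n (m + 2) := (L_succ n (m + 1)).symm
  rw [e1] at hz2 hz3
  set z := v m with hz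
  set lam := L n (m + 2) with hlam
  have hl5 := hzn.h5
  have hln : lam ≤ L n 1 := L_anti h (by omega) le_rfl
  set a : ℝ := (Real.log ‖z‖ - L n 1) / ((n:ℝ) - 1) with ha
  set x : ℂ := Complex.exp (⟨a, z.arg / ((n:ℝ) - 1)⟩ : ℂ) with hx
  have hxe : x = Complex.exp ((Complex.log z - (L n 1 : ℝ)) / ((n:ℂ) - 1)) := by
    rw [hx]
    congr 1
    have hc : (Complex.log z - (L n 1 : ℝ)) / ((n:ℂ) - 1) =
        (Complex.log z - (L n 1 : ℝ)) / (((n:ℝ) - 1 : ℝ) : ℂ) := by push_cast; rfl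
    rw [hc]
    apply Complex.ext
    · rw [Complex.div_ofReal_re, Complex.sub_re, Complex.log_re, Complex.ofReal_re]
    · rw [Complex.div_ofReal_im, Complex.sub_im, Complex.log_im, Complex.ofReal_im, sub_zero]
  have hcast : ((n - 1 : ℕ) : ℂ) = (n:ℂ) - 1 := by
    rw [Nat.cast_sub (by omega)]; simp
  have hxm : x ^ (n - 1) = z / n := by
    rw [hxe, ← Complex.exp_nat_mul, hcast, mul_div_cancel₀ _ hmC, Complex.exp_sub,
      Complex.exp_log hz0, ← Complex.ofReal_exp, n2]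
    push_cast; rfl
  have hxn : x ^ n = x * (z / n) := by
    have : x ^ n = x * x ^ (n - 1) := by rw [← pow_succ']; congr 1; omega
    rw [this, hxm]
  have hx0 : x ≠ 0 := Complex.exp_ne_zero _
  -- the orbit
  have horb : ∀ j, j ≤ m → P n (j + 2) x = x * (1 + v (m - j) / n) := by
    intro j
    induction j with
    | zero =>
      intro _
      rw [P_succ, P_one (by omega), hxn, Nat.sub_zero, ← hz]
      ring
    | succ j ih =>
      intro hj
      have h1 := ih (by omega)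
      rw [show j + 1 + 2 = (j + 2) + 1 by omega, P_succ, h1, mul_pow]
      have h2 : v (m - j) = E n (Complex.log (v (m - (j + 1))) - Complex.log z) := by
        have h3 := hs (m - (j + 1)) (by omega)
        have h4 : m - (j + 1) + 1 = m - j := by omega
        rw [h4] at h3
        exact h3
      have hb := (num_of_big h (show m - (j + 1) ≤ m by omega)).box (hv (m - (j + 1)) (by omega))
      have h5 : (1 + v (m - j) / n) ^ n = v (m - (j + 1)) / z := by
        rw [h2, E_pow hn0, Complex.exp_sub, Complex.exp_log hz0, Complex.exp_log hb.2.1]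
      rw [h5, hxn]
      field_simp
      ring
  have hP : P n (m + 3) x = 0 := by
    have h1 := horb m le_rfl
    rw [show m + 3 = (m + 2) + 1 by omega, P_succ, h1, mul_pow, Nat.sub_self, hxn]
    have h2 : (1 + v 0 / n) ^ n = -n / z := by
      rw [h0, E_pow hn0, Complex.exp_sub, Complex.exp_log hz0, Complex.exp_add,
        Complex.exp_pi_mul_I, ← Complex.ofReal_exp, n2]
      push_cast; ring
    rw [h2]
    field_simp
    ring
  have hPne : ∀ j, 1 ≤ j → j ≤ m + 2 → P n j x ≠ 0 := by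
    intro j hj1 hj2
    rcases Nat.lt_or_ge j 2 with hj | hj
    · have : j = 1 := by omega
      subst this
      rw [P_one (by omega)]; exact hx0
    · obtain ⟨i, rfl⟩ : ∃ i, j = i + 2 := ⟨j - 2, by omega⟩
      rw [horb i (by omega)]
      apply mul_ne_zero hx0
      intro h1
      have hb := (num_of_big h (show m - i ≤ m by omega)).box (hv (m - i) (by omega))
      have h2 := congrArg Complex.re h1
      rw [Complex.add_re, Complex.one_re, Complex.zero_re] at h2
      have h3 : (v (m - i) / (n:ℂ)).re = (v (m - i)).re / n := by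
        have := Complex.div_ofReal_re (v (m - i)) (n:ℝ)
        push_cast at this; exact this
      rw [h3] at h2
      have h4 : 0 < (v (m - i)).re / n := div_pos (by linarith [hb.1]) n3
      linarith
  have hargne : z.arg ≠ 0 := by
    intro h1
    have h2 : x = ((Real.exp a : ℝ) : ℂ) := by
      rw [hx, h1, zero_div, Complex.ofReal_exp]
      rfl
    obtain ⟨s, -, hs1, hs2⟩ := P_real_pos (n := n) (Real.exp_pos a) (m + 3)
    rw [← h2, hP] at hs1
    have h3 := hs2 (by omega)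
    have h4 : s = 0 := by exact_mod_cast hs1.symm
    linarith
  have harg2 : |z.arg| < 2 * Real.pi := by
    have := Complex.abs_arg_le_pi z
    have := Real.pi_pos
    linarith
  set Pi := ∏ j ∈ Finset.range (m + 1), L n (j + 1) with hPi
  have hPipos : 0 < Pi := Finset.prod_pos (fun j hj => by
    rw [Finset.mem_range] at hj
    have := (num_of_big h (show j ≤ m by omega)).hM
    linarith)
  have hargB : |z.arg| ≤ 4 / Pi := by
    rw [le_div_iff₀ hPipos]; exact hang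
  have hq : L n 1 / ((n:ℝ) - 1) ≤ 0.001 ∧ L n 1 / ((n:ℝ) - 1) * L n 1 ≤ 0.02 := by
    have h1 : (n:ℝ) / 2 ≤ (n:ℝ) - 1 := by linarith
    have h2 : L n 1 * L n 1 ≤ 0.01 * n := by
      rwa [div_le_iff₀ n3] at n6
    constructor
    · rw [div_le_iff₀ hm0]; nlinarith
    · rw [div_mul_eq_mul_div, div_le_iff₀ hm0]; nlinarith
  have ha0 : a ≤ 0 := by
    rw [ha]
    apply div_nonpos_of_nonpos_of_nonneg _ hm0.le
    have h2 : L n (m + 2) + 1 ≤ L n 1 := by
      have h3 : L n (m + 1) ≤ L n 1 := L_anti h (by omega) (by omega)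
      have h4 := hzn.hM
      linarith
    linarith
  refine ⟨x, hP, hPne, ?_, ?_, ?_⟩
  · intro h1
    apply hargne
    have h2 : x.im = 0 := Complex.conj_eq_iff_im.mp h1.symm
    rw [hx, Complex.exp_im] at h2
    have h3 : Real.sin (z.arg / ((n:ℝ) - 1)) = 0 := by
      rcases mul_eq_zero.mp h2 with h3 | h3
      · exact absurd h3 (Real.exp_pos _).ne'
      · exact h3
    have h4 : |z.arg / ((n:ℝ) - 1)| < Real.pi := by
      rw [abs_div, abs_of_pos hm0, div_lt_iff₀ hm0]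
      have := Real.pi_pos
      nlinarith [Complex.abs_arg_le_pi z]
    rw [abs_lt] at h4
    have h5 := (Real.sin_eq_zero_iff_of_lt_of_lt h4.1 h4.2).mp h3
    rcases div_eq_zero_iff.mp h5 with h6 | h6
    · exact h6
    · linarith
  · have h1 := dist_conj hn3 ha0 hargB hx
    refine h1.trans (le_of_eq ?_)
    field_simp
    ring
  · intro S hS hSc hxS hyS
    have h1 := sep_conj hn3 hargne harg2 hx hS hSc hxS hyS
    refine le_trans ?_ h1
    have hxnorm : ‖x‖ = Real.exp a := by rw [hx, Complex.norm_exp]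
    set q : ℝ := L n 1 / ((n:ℝ) - 1) with hq'
    have hln' : Real.log n = L n 1 := rfl
    have hrr : rr n = Real.exp (-q) * (1 - 1 / n) := by
      rw [rr_eq (by omega)]
      unfold sr
      rw [hq', hln']
    have ha' : Real.exp a = Real.exp (-q) * Real.exp (Real.log ‖z‖ / ((n:ℝ) - 1)) := by
      rw [← Real.exp_add]; congr 1; rw [ha, hq']; ring
    rw [hxnorm, hrr, ha']
    have h4 := Real.add_one_le_exp (Real.log ‖z‖ / ((n:ℝ) - 1))
    have h5 : 1 - q ≤ Real.exp (-q) := by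
      have := Real.add_one_le_exp (-q); linarith
    have h6 : (lam - 0.08) / ((n:ℝ) - 1) ≤ Real.log ‖z‖ / ((n:ℝ) - 1) :=
      div_le_div_of_nonneg_right hz2 hm0.le
    have h7 : 0.9 / ((n:ℝ) - 1) ≤ 1 / n := by
      rw [div_le_div_iff₀ hm0 n3]; linarith
    have h8 : (lam + 0.8) / ((n:ℝ) - 1) ≤
        Real.exp (Real.log ‖z‖ / ((n:ℝ) - 1)) - (1 - 1 / n) := by
      have : (lam + 0.8) / ((n:ℝ) - 1) ≤ (lam - 0.08) / ((n:ℝ) - 1) + 0.9 / ((n:ℝ) - 1) := by
        rw [← add_div]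
        apply div_le_div_of_nonneg_right _ hm0.le
        linarith
      linarith
    have h9 : lam / ((n:ℝ) - 1) ≤ (1 - q) * ((lam + 0.8) / ((n:ℝ) - 1)) := by
      rw [← mul_div_assoc]
      apply div_le_div_of_nonneg_right _ hm0.le
      have h10 : q * lam ≤ q * L n 1 := mul_le_mul_of_nonneg_left hln (by positivity)
      nlinarith [hq.1, hq.2]
    have h10 : 0 ≤ (lam + 0.8) / ((n:ℝ) - 1) := by positivity
    have hq1 : 0 ≤ 1 - q := by linarith [hq.1]
    calc lam / ((n:ℝ) - 1) ≤ (1 - q) * ((lam + 0.8) / ((n:ℝ) - 1)) := h9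
      _ ≤ Real.exp (-q) * (Real.exp (Real.log ‖z‖ / ((n:ℝ) - 1)) - (1 - 1 / n)) :=
          mul_le_mul h5 h8 h10 (Real.exp_pos _).le
      _ = _ := by ring

end Pool.Agent.Run7.h734.LC
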