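import Mathlib
import Pool.Prelude.Def_F_c31e40fa
import Pool.Agent.Run7.h734.LC.Level

set_option autoImplicit false

open Complex Set Topology Filter N62a1eb23 Pool.Agent.H712R2 Pool.Agent.N228.LC

namespace Pool.Agent.Run7.h734.LC

theorem level_one {n : ℕ} (hn : 3 ≤ n) :
    ∃ x : ℂ, P n 2 x = 0 ∧ (∀ j, 1 ≤ j → j ≤ 1 → P n j x ≠ 0) ∧
      x ≠ (starRingEnd ℂ) x ∧
      dist x ((starRingEnd ℂ) x) ≤ 8 / ((n:ℝ) - 1) ∧
      ∀ S : Set ℂ, S ⊆ multibrotSet n → IsPreconnected S → x ∈ S → (starRingEnd ℂ) x ∈ S →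
        Real.log n / ((n:ℝ) - 1) ≤ Metric.diam S := by
  have hnr : (3:ℝ) ≤ n := by exact_mod_cast hn
  have hm0 : 0 < (n:ℝ) - 1 := by linarith
  have hmC : (n:ℂ) - 1 ≠ 0 := by
    intro h
    have : ((n:ℝ) - 1 : ℝ) = 0 := by exact_mod_cast h
    linarith
  have hpi := Real.pi_pos
  have hpi3 : Real.pi < 3.15 := Real.pi_lt_d2
  have hpi4 : 3 < Real.pi := Real.pi_gt_three
  set x : ℂ := Complex.exp (⟨0, Real.pi / ((n:ℝ) - 1)⟩ : ℂ) with hx
  have hcast : ((n - 1 : ℕ) : ℂ) = (n:ℂ) - 1 := by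
    rw [Nat.cast_sub (by omega)]; simp
  have hxm : x ^ (n - 1) = -1 := by
    rw [hx, ← Complex.exp_nat_mul, hcast]
    have : ((n:ℂ) - 1) * (⟨0, Real.pi / ((n:ℝ) - 1)⟩ : ℂ) = Real.pi * I := by
      have h1 : (⟨0, Real.pi / ((n:ℝ) - 1)⟩ : ℂ) = ((Real.pi / ((n:ℝ) - 1) : ℝ) : ℂ) * I := by
        apply Complex.ext
        · rw [Complex.re_ofReal_mul, Complex.I_re, mul_zero]
        · rw [Complex.im_ofReal_mul, Complex.I_im, mul_one]
      rw [h1]; push_cast; field_simp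
    rw [this, Complex.exp_pi_mul_I]
  have hxnorm : ‖x‖ = 1 := by rw [hx, Complex.norm_exp]; exact Real.exp_zero
  have hx0 : x ≠ 0 := Complex.exp_ne_zero _
  refine ⟨x, ?_, ?_, ?_, ?_, ?_⟩
  · rw [P_succ, P_one (by omega)]
    have : x ^ n = x ^ (n - 1) * x := by rw [← pow_succ]; congr 1; omega
    rw [this, hxm]; ring
  · intro j h1 h2
    have : j = 1 := by omega
    subst this
    rw [P_one (by omega)]; exact hx0
  · intro h1
    have h2 : x.im = 0 := Complex.conj_eq_iff_im.mp h1.symm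
    rw [hx, Complex.exp_im] at h2
    have h3 : Real.sin (Real.pi / ((n:ℝ) - 1)) = 0 := by
      rcases mul_eq_zero.mp h2 with h3 | h3
      · exact absurd h3 (Real.exp_pos _).ne'
      · exact h3
    have h4 : 0 < Real.sin (Real.pi / ((n:ℝ) - 1)) := by
      apply Real.sin_pos_of_pos_of_lt_pi (by positivity)
      rw [div_lt_iff₀ hm0]; nlinarith
    linarith
  · have h1 := dist_conj hn (le_refl (0:ℝ)) (show |Real.pi| ≤ 4 by
      rw [abs_of_pos hpi]; linarith) hx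
    linarith
  · intro S hS hSc hxS hyS
    have h1 := sep_conj hn hpi.ne' (show |Real.pi| < 2 * Real.pi by
      rw [abs_of_pos hpi]; linarith) hx hS hSc hxS hyS
    rw [hxnorm] at h1
    exact (depth (by omega)).trans h1

theorem big_cast {n k : ℕ} (h : Real.exp^[k] 5 ≤ (n:ℝ)) : Big n k := big_of_tower h

theorem three_le {n k : ℕ} (h : Real.exp^[k] 5 ≤ (n:ℝ)) : 3 ≤ n := by
  have h1 := big_of_tower h 0 (Nat.zero_le k)
  rw [L_zero] at h1
  have : (5:ℕ) ≤ n := by exact_mod_cast h1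
  omega

theorem all_levels {n k : ℕ} (hk : 1 ≤ k) (h : Real.exp^[k] 5 ≤ (n:ℝ)) :
    ∃ x : ℂ, P n (k + 1) x = 0 ∧ (∀ j, 1 ≤ j → j ≤ k → P n j x ≠ 0) ∧
      x ≠ (starRingEnd ℂ) x ∧
      dist x ((starRingEnd ℂ) x) ≤
        8 / (((n:ℝ) - 1) * ∏ j ∈ Finset.range (k - 1), L n (j + 1)) ∧
      ∀ S : Set ℂ, S ⊆ multibrotSet n → IsPreconnected S → x ∈ S → (starRingEnd ℂ) x ∈ S →
        L n k / ((n:ℝ) - 1) ≤ Metric.diam S := by
  rcases Nat.lt_or_ge k 2 with h1 | h1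
  · have hk1 : k = 1 := by omega
    subst hk1
    have hn3 := three_le h
    have h2 := level_one hn3
    have h3 : L n 1 = Real.log n := rfl
    simpa [h3] using h2
  · obtain ⟨m, rfl⟩ : ∃ m, k = m + 2 := ⟨k - 2, by omega⟩
    exact level (big_of_tower h)

end Pool.Agent.Run7.h734.LC
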